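import Pool.Agent.Results.MP_c12988_an.CubicForm
import Pool.Agent.M3C.Final

/-!
# Integer 3x3 matrices without integer eigenvalue: eigenrows
-/

set_option autoImplicit false

open Matrix Module Polynomial

namespace M3D

open Margulis3 M3C

abbrev Zt := Matrix (Fin 3) (Fin 3) ℤ

/-- no integer eigenvalue -/
def NoEig (γ : Zt) : Prop := ∀ m : ℤ, (γ - Matrix.diagonal (fun _ => m)).det ≠ 0

/-- coercion of an integer matrix to a field -/
def il (L : Type*) [Ring L] (γ : Zt) : Matrix (Fin 3) (Fin 3) L := γ.map (Int.castRingHom L)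

lemma il_mul {L : Type*} [Ring L] (a b : Zt) : il L (a * b) = il L a * il L b :=
  Matrix.map_mul (L := a) (M := b) (f := Int.castRingHom L)

lemma il_apply {L : Type*} [Ring L] (a : Zt) (i j : Fin 3) : il L a i j = (a i j : L) := rfl

lemma il_mulVec {L : Type*} [Ring L] (a : Zt) (w : Fin 3 → ℤ) :
    il L a *ᵥ (fun j => (w j : L)) = fun i => ((a *ᵥ w) i : L) := by
  funext i
  simp only [il, mulVec, dotProduct, Matrix.map_apply]
  push_cast
  rfl

theorem irr_charpoly {γ : Zt} (h : NoEig γ) : Irreducible (il ℚ γ).charpoly := by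
  have hpdeg : (il ℚ γ).charpoly.natDegree = 3 := by
    rw [charpoly_natDegree_eq_dim]; rfl
  refine Polynomial.irreducible_of_degree_le_three_of_not_isRoot (by rw [hpdeg]; decide) ?_
  intro q hq
  have h1 : (il ℚ γ).charpoly = γ.charpoly.map (Int.castRingHom ℚ) := by
    rw [← Matrix.charpoly_map]; rfl
  have h2 : Polynomial.aeval q γ.charpoly = 0 := by
    rw [Polynomial.IsRoot, h1] at hq
    rw [Polynomial.aeval_def, ← Polynomial.eval_map]
    exact hq
  obtain ⟨m, hm⟩ := isInteger_of_is_root_of_monic (charpoly_monic γ) h2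
  have h3 : q = (m : ℚ) := by rw [← hm]; rfl
  have h4 : γ.charpoly.eval m = 0 := by
    rw [h3] at h2
    have h5 : Polynomial.aeval ((m : ℤ) : ℚ) γ.charpoly
        = ((γ.charpoly.eval m : ℤ) : ℚ) := by
      have := Polynomial.aeval_algebraMap_apply ℚ m γ.charpoly
      simpa using this
    rw [h5] at h2
    exact_mod_cast h2
  rw [Matrix.eval_charpoly] at h4
  apply h m
  have h6 : γ - Matrix.diagonal (fun _ => m) = -(Matrix.scalar (Fin 3) m - γ) := by
    rw [neg_sub]; rfl
  rw [h6, Matrix.det_neg, h4, mul_zero]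

/-- an eigenrow of a matrix without integer eigenvalue has independent coordinates -/
theorem row_indep {L : Type*} [Field L] [CharZero L] {γ : Zt} (hγ : NoEig γ) {v : Fin 3 → L}
    (hv : v ≠ 0) {θ : L} (he : v ᵥ* il L γ = θ • v) (w : Fin 3 → ℤ)
    (hw : v ⬝ᵥ (fun j => (w j : L)) = 0) : w = 0 := by
  by_contra hw0
  have hk : ∀ k : ℕ, v ⬝ᵥ (fun j => (((γ ^ k) *ᵥ w) j : L)) = 0 := by
    intro k
    induction k with
    | zero => simpa using hw
    | succ k ih =>
      have e1 : (γ ^ (k + 1)) *ᵥ w = γ *ᵥ ((γ ^ k) *ᵥ w) := by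
        rw [mulVec_mulVec, ← pow_succ']
      have e2 : (fun j => (((γ ^ (k + 1)) *ᵥ w) j : L))
          = il L γ *ᵥ (fun j => (((γ ^ k) *ᵥ w) j : L)) := by
        rw [il_mulVec, e1]
      rw [e2, dotProduct_mulVec, he, smul_dotProduct, ih, smul_zero]
  set W : Zt := Matrix.of fun i k => ((γ ^ (k : ℕ)) *ᵥ w) i with hW
  have hvW : v ᵥ* il L W = 0 := by
    funext k
    exact hk k
  have hdetL : (il L W).det = 0 := by
    rw [← exists_vecMul_eq_zero_iff]
    exact ⟨v, hv, hvW⟩
  have hdetW : W.det = 0 := by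
    have h1 : (il L W).det = ((W.det : ℤ) : L) := by
      unfold il
      rw [← RingHom.mapMatrix_apply, ← RingHom.map_det]; rfl
    rw [h1] at hdetL
    exact_mod_cast hdetL
  obtain ⟨s, hs0, hs⟩ := exists_mulVec_eq_zero_iff.mpr hdetW
  have hs' : ∀ i, (s 0 : ℤ) * w i + s 1 * (γ *ᵥ w) i + s 2 * ((γ ^ 2) *ᵥ w) i = 0 := by
    intro i
    have h1 := congrFun hs i
    simp only [mulVec, dotProduct, Fin.sum_univ_three] at h1
    have e0 : W i 0 = w i := by simp [hW]
    have e1 : W i 1 = (γ *ᵥ w) i := by simp [hW]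
    have e2 : W i 2 = ((γ ^ 2) *ᵥ w) i := by simp [hW]
    rw [e0, e1, e2] at h1
    simp only [Pi.zero_apply] at h1
    linarith
  -- the rational polynomial
  set S : ℚ[X] := C (s 0 : ℚ) + C (s 1 : ℚ) * X + C (s 2 : ℚ) * X ^ 2 with hS
  have hS0 : S ≠ 0 := by
    intro h
    apply hs0
    have c0 := congrArg (fun p => Polynomial.coeff p 0) h
    have c1 := congrArg (fun p => Polynomial.coeff p 1) h
    have c2 := congrArg (fun p => Polynomial.coeff p 2) h
    simp only [hS, Polynomial.coeff_add, Polynomial.coeff_C_mul, Polynomial.coeff_C,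
      Polynomial.coeff_X, Polynomial.coeff_X_pow, Polynomial.coeff_zero] at c0 c1 c2
    norm_num at c0 c1 c2
    funext i
    fin_cases i
    · exact c0
    · exact c1
    · exact c2
  have hSdeg : S.natDegree ≤ 2 := by
    rw [hS]
    compute_degree
  set f := (il ℚ γ).charpoly with hf
  have hfdeg : f.natDegree = 3 := by rw [hf, charpoly_natDegree_eq_dim]; rfl
  have hnd : ¬ f ∣ S := by
    intro hd
    have := Polynomial.natDegree_le_of_dvd hd hS0
    omega
  have hco : IsCoprime f S := ((irr_charpoly hγ).coprime_iff_not_dvd).mpr hnd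
  obtain ⟨a, b, hab⟩ := hco
  set wq : Fin 3 → ℚ := fun j => (w j : ℚ) with hwq
  have hSw : (Polynomial.aeval (il ℚ γ) S) *ᵥ wq = 0 := by
    have e1 : Polynomial.aeval (il ℚ γ) S = (s 0 : ℚ) • (1 : Matrix (Fin 3) (Fin 3) ℚ)
        + (s 1 : ℚ) • il ℚ γ + (s 2 : ℚ) • il ℚ (γ ^ 2) := by
      rw [hS]
      have e3 : il ℚ (γ ^ 2) = (il ℚ γ) ^ 2 := by rw [pow_two, pow_two, il_mul]
      rw [e3]
      simp only [map_add, map_mul, Polynomial.aeval_C, Polynomial.aeval_X, map_pow,
        Algebra.algebraMap_eq_smul_one, smul_mul_assoc, one_mul]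
    rw [e1, add_mulVec, add_mulVec, smul_mulVec, smul_mulVec, smul_mulVec, one_mulVec, hwq,
      il_mulVec, il_mulVec]
    funext i
    have := hs' i
    simp only [Pi.add_apply, Pi.smul_apply, smul_eq_mul, Pi.zero_apply]
    exact_mod_cast this
  have hfw : Polynomial.aeval (il ℚ γ) f = 0 := by
    rw [hf]; exact Matrix.aeval_self_charpoly _
  have h1 : wq = 0 := by
    have h2 : (Polynomial.aeval (il ℚ γ) (a * f + b * S)) *ᵥ wq = 0 := by
      rw [map_add, map_mul, map_mul, hfw, mul_zero, zero_add, ← mulVec_mulVec, hSw, mulVec_zero]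
    rw [hab, map_one, one_mulVec] at h2
    exact h2
  apply hw0
  funext j
  have := congrFun h1 j
  simp only [hwq, Pi.zero_apply] at this
  exact_mod_cast this

/-- eigenrows with the same eigenvalue are proportional -/
theorem eig_simple {L : Type*} [Field L] [CharZero L] {γ : Zt} (hγ : NoEig γ) {v v' : Fin 3 → L}
    (hv : v ≠ 0) {θ : L} (he : v ᵥ* il L γ = θ • v) (he' : v' ᵥ* il L γ = θ • v') :
    ∃ μ : L, v' = μ • v := by
  have hv0 : v 0 ≠ 0 := by
    intro h0
    have h1 := row_indep hγ hv he ![1, 0, 0] (by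
      simp [dotProduct, Fin.sum_univ_three, h0])
    have := congrFun h1 0
    simp at this
  refine ⟨v' 0 / v 0, ?_⟩
  by_contra hne
  set u : Fin 3 → L := v' - (v' 0 / v 0) • v with hu
  have hu0 : u ≠ 0 := by
    intro h
    exact hne (sub_eq_zero.mp h)
  have hue : u ᵥ* il L γ = θ • u := by
    rw [hu, sub_vecMul, he', smul_vecMul, he, smul_sub, smul_comm]
  have h1 := row_indep hγ hu0 hue ![1, 0, 0] (by
    have : u 0 = 0 := by
      simp only [hu, Pi.sub_apply, Pi.smul_apply, smul_eq_mul]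
      field_simp
      ring
    simp [dotProduct, Fin.sum_univ_three, this])
  have := congrFun h1 0
  simp at this

lemma il_real (γ : Zt) : il ℝ γ = ir γ := rfl

/-- a real eigenrow is a real multiple of a vector with coordinates in a cubic field -/
theorem cubic_of_eigen {γ : Zt} (hγ : NoEig γ) {r : Fin 3 → ℝ} (hr : r ≠ 0) {θ : ℝ}
    (he : r ᵥ* ir γ = θ • r) :
    Pool.Agent.Results.MP_c12988_an.CubicForm.CubicVector r := by
  set p := (il ℚ γ).charpoly with hp
  have hpm : p.Monic := charpoly_monic _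
  have hpdeg : p.natDegree = 3 := by rw [hp, charpoly_natDegree_eq_dim]; rfl
  have hirr : Irreducible p := irr_charpoly hγ
  have hdetθ : (Matrix.scalar (Fin 3) θ - ir γ).det = 0 := by
    rw [← exists_vecMul_eq_zero_iff]
    refine ⟨r, hr, ?_⟩
    rw [vecMul_sub, he, sub_eq_zero]
    simp [Matrix.scalar_apply, ← smul_one_eq_diagonal, vecMul_smul]
  have haeval : Polynomial.aeval θ p = 0 := by
    have h1 : Polynomial.eval θ (p.map (algebraMap ℚ ℝ)) = 0 := by
      rw [hp, ← Matrix.charpoly_map, Matrix.eval_charpoly]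
      have h2 : (il ℚ γ).map (algebraMap ℚ ℝ) = ir γ := by
        ext i j
        simp [il, ir]
      have h3 : (algebraMap ℚ ℝ).mapMatrix (il ℚ γ) = ir γ := h2
      first
        | rw [h2]; exact hdetθ
        | rw [h3]; exact hdetθ
    rw [Polynomial.aeval_def, ← Polynomial.eval_map]
    exact h1
  have hmin : p = minpoly ℚ θ := minpoly.eq_of_irreducible_of_monic hirr haeval hpm
  have hint : IsIntegral ℚ θ := ⟨p, hpm, by rw [← Polynomial.aeval_def]; exact haeval⟩
  have h3 : finrank ℚ (IntermediateField.adjoin ℚ {θ}) = 3 := by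
    rw [IntermediateField.adjoin.finrank hint, ← hmin, hpdeg]
  set K := IntermediateField.adjoin ℚ {θ} with hK
  set τ0 : K →+* ℝ := algebraMap K ℝ with hτ0
  set θK : K := IntermediateField.AdjoinSimple.gen ℚ θ with hθK
  have hθτ : τ0 θK = θ := IntermediateField.AdjoinSimple.algebraMap_gen ℚ θ
  set γK : Matrix (Fin 3) (Fin 3) K := γ.map (fun z : ℤ => (z : K)) with hγK
  have hmapγ : τ0.mapMatrix γK = ir γ := by
    ext i j
    simp [hγK, ir]
  have hdetK : (Matrix.scalar (Fin 3) θK - γK).det = 0 := by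
    apply τ0.injective
    rw [map_zero, RingHom.map_det, map_sub, hmapγ]
    have h4 : τ0.mapMatrix (Matrix.scalar (Fin 3) θK) = Matrix.scalar (Fin 3) θ := by
      ext i j
      by_cases hij : i = j
      · subst hij; simp [hθτ]
      · simp [hij]
    rw [h4]; exact hdetθ
  rw [← exists_vecMul_eq_zero_iff] at hdetK
  obtain ⟨κ, hκ0, hκ⟩ := hdetK
  rw [vecMul_sub, sub_eq_zero] at hκ
  set ρ : Fin 3 → ℝ := fun j => τ0 (κ j) with hρ
  have hρ0 : ρ ≠ 0 := by
    intro h0
    apply hκ0
    funext j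
    have := congrFun h0 j
    simp only [hρ, Pi.zero_apply] at this
    exact (map_eq_zero τ0).mp this
  have hργ : ρ ᵥ* ir γ = θ • ρ := by
    funext j
    have h4 := congrArg τ0 (congrFun hκ j)
    simp only [vecMul, dotProduct, map_sum, map_mul, Pi.smul_apply, smul_eq_mul] at h4 ⊢
    have h5 : ∀ i, τ0 (γK i j) = ir γ i j := by
      intro i
      rw [← hmapγ]; rfl
    simp only [h5] at h4
    rw [← h4]
    rw [Finset.sum_eq_single j]
    · simp [hρ, hθτ, mul_comm]
    · intro i _ hij
      simp [hij]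
    · intro h; exact absurd (Finset.mem_univ j) h
  obtain ⟨μ, hμ⟩ := eig_simple (L := ℝ) hγ hρ0 hργ he
  refine ⟨K, h3, μ, κ, fun j => ?_⟩
  exact congrFun hμ j

end M3D
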