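import Pool.Agent.M3D.Chain0

/-!
# An integer matrix acting boundedly at two very distant points of the orbit
-/

set_option autoImplicit false

open Matrix Filter Topology Set

namespace M3D

open Margulis3 M3C

/-- an integer matrix acting with a diagonal row or column closes the orbit -/
theorem closed_of_G {h : Mt} (hd : h.det = 1) (hb : BoundedOrbit h) {Y : Zt} (hY : NoEig Y)
    {G : Mt} (hG : h * ir Y = G * h) {l : Fin 3}
    (hl : (∀ j, j ≠ l → G l j = 0) ∨ (∀ j, j ≠ l → G j l = 0)) : IsClosed (orbitSet h) := by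
  refine Pool.Agent.Results.MP_c12988_an.CubicForm.result h hd hb ⟨l, ?_⟩
  rcases hl with hl | hl
  · left
    have hgl : h l ≠ 0 := by
      intro h0
      have : h.det = 0 := det_eq_zero_of_row_eq_zero l (fun j => congrFun h0 j)
      rw [this] at hd; norm_num at hd
    refine cubic_of_eigen hY hgl (θ := G l l) ?_
    funext j
    have h8 : (h l ᵥ* ir Y) j = (G * h) l j := by rw [← hG]; rfl
    rw [h8, Matrix.mul_apply, Finset.sum_eq_single l]
    · rfl
    · intro k _ hk
      rw [hl k hk, zero_mul]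
    · intro h; exact absurd (Finset.mem_univ l) h
  · right
    have hgl : (fun j => h⁻¹ j l) ≠ 0 := by
      intro h0
      have : (h⁻¹).det = 0 := det_eq_zero_of_column_eq_zero l (fun j => congrFun h0 j)
      rw [det_inv_one hd] at this; norm_num at this
    refine cubic_of_eigen (noEig_transpose hY) hgl (θ := G l l) ?_
    have h9 : ir Y * h⁻¹ = h⁻¹ * G := by
      calc ir Y * h⁻¹ = h⁻¹ * (h * ir Y) * h⁻¹ := by
            rw [← mul_assoc, inv_mul_one hd, one_mul]
        _ = h⁻¹ * G := by rw [hG, mul_assoc, mul_assoc, mul_inv_one hd, mul_one]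
    funext j
    have h10 : ((fun j => h⁻¹ j l) ᵥ* ir Yᵀ) j = (ir Y * h⁻¹) j l := by
      have : ir Yᵀ = (ir Y)ᵀ := rfl
      rw [this, vecMul_transpose]; rfl
    rw [h10, h9, Matrix.mul_apply, Finset.sum_eq_single l]
    · simp [mul_comm]
    · intro k _ hk
      rw [hl k hk, mul_zero]
    · intro h; exact absurd (Finset.mem_univ l) h

/-- a compact set of matrices is bounded -/
lemma exists_bound {K : Set Mt} (hK : IsCompact K) : ∃ C : ℝ, 1 ≤ C ∧ ∀ M ∈ K, ∀ i j, |M i j| ≤ C := by
  have hcont : Continuous (fun M : Mt => ∑ i, ∑ j, |M i j|) := by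
    refine continuous_finsetSum _ fun i _ => continuous_finsetSum _ fun j _ => ?_
    exact ((continuous_id (X := Mt)).matrix_elem i j).abs
  obtain ⟨C0, hC0⟩ := (hK.image hcont).bddAbove
  refine ⟨max C0 1, le_max_right _ _, fun M hM i j => ?_⟩
  have h1 : ∑ i, ∑ j, |M i j| ≤ C0 := hC0 ⟨M, hM, rfl⟩
  have h2 : |M i j| ≤ ∑ j, |M i j| :=
    Finset.single_le_sum (f := fun j => |M i j|) (fun _ _ => abs_nonneg _) (Finset.mem_univ j)
  have h3 : ∑ j, |M i j| ≤ ∑ i, ∑ j, |M i j| :=
    Finset.single_le_sum (f := fun i => ∑ j, |M i j|)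
      (fun _ _ => Finset.sum_nonneg fun _ _ => abs_nonneg _) (Finset.mem_univ i)
  exact (h2.trans h3).trans (h1.trans (le_max_left _ _))

/-- reduced conjugates of an integer matrix acting boundedly are bounded -/
lemma conj_bound {y : Mt} (hyd : y.det = 1) {κ X : Zt} (hκ : κ.det = 1) {C T : ℝ} (hT : 0 ≤ T)
    (hC : ∀ i j, |(y * ir κ) i j| ≤ C) {P : Mt} (hP : y * ir X = P * y) (h1 : ∀ i j, |P i j| ≤ T)
    (i j : Fin 3) : |(ir (κ.adjugate * X * κ)) i j| ≤ 18 * C ^ 3 * T := by
  have hC0 : 0 ≤ C := (abs_nonneg _).trans (hC 0 0)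
  set h := y * ir κ with hh
  have hhd : h.det = 1 := by rw [hh, det_mul, hyd, det_ir hκ, one_mul]
  have e1 : ir (κ.adjugate * X * κ) = h.adjugate * (P * h) := by
    have e2 : P * h = h * ir (κ.adjugate * X * κ) := by
      calc P * h = y * ir X * ir κ := by rw [hh, ← mul_assoc, hP]
        _ = y * (ir κ * ir κ.adjugate) * ir X * ir κ := by
            rw [ir_mul_adj hκ, mul_one]
        _ = h * ir (κ.adjugate * X * κ) := by
            rw [hh, ir_mul, ir_mul]; simp only [mul_assoc]
    rw [e2, ← mul_assoc, adjugate_mul, hhd, one_smul, one_mul]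
  rw [e1]
  have hPh : ∀ k, |(P * h) k j| ≤ 3 * T * C := fun k =>
    mul_entry_le hT (h1 k) (fun m => hC m j)
  have := mul_entry_le (P := h.adjugate) (h := P * h) (T := 2 * C ^ 2) (C := 3 * T * C)
    (i := i) (j := j) (by positivity) (fun k => adj_entry_le hC i k) hPh
  calc |(h.adjugate * (P * h)) i j| ≤ 3 * (2 * C ^ 2) * (3 * T * C) := this
    _ = 18 * C ^ 3 * T := by ring

lemma noEig_conj {X κ : Zt} (hκ : κ.det = 1) (h : NoEig X) : NoEig (κ.adjugate * X * κ) := by
  intro m
  have e : κ.adjugate * X * κ - Matrix.diagonal (fun _ => m)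
      = κ.adjugate * (X - Matrix.diagonal (fun _ => m)) * κ := by
    have h1 : κ.adjugate * Matrix.diagonal (fun _ => m) * κ = Matrix.diagonal (fun _ => m) := by
      have h2 : κ.adjugate * Matrix.diagonal (fun _ => m)
          = Matrix.diagonal (fun _ => m) * κ.adjugate := by
        ext i j
        rw [mul_diagonal, diagonal_mul, mul_comm]
      rw [h2, mul_assoc, adj_mul hκ, mul_one]
    rw [mul_sub, sub_mul, h1]
  rw [e, det_mul, det_mul, hκ, mul_one, adj_det hκ, one_mul]
  exact h m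

theorem closed_of_far {g : Mt} (hg : g.det = 1) (hb : BoundedOrbit g) {T : ℝ} (hT : 0 ≤ T)
    (H : ∀ D : ℕ, ∃ a a' : Fin 3 → ℝ, (Matrix.diagonal a).det = 1 ∧ (Matrix.diagonal a').det = 1 ∧
      ∃ (Y : Zt) (P P' : Mt), NoEig Y ∧
        Matrix.diagonal a * g * ir Y = P * (Matrix.diagonal a * g) ∧
        Matrix.diagonal a' * g * ir Y = P' * (Matrix.diagonal a' * g) ∧
        (∀ i j, |P i j| ≤ T) ∧ (∀ i j, |P' i j| ≤ T) ∧
        ∃ i, (D : ℝ) ≤ abs (Real.log |a' i| - Real.log |a i|)) : IsClosed (orbitSet g) := by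
  choose a a' ha ha' Y P P' hY hP hP' hPT hPT' hfar using H
  have hS := closure_bd hg hb
  obtain ⟨K, hK, hKm⟩ := hb
  obtain ⟨C, hC1, hC⟩ := exists_bound hK
  choose κ hκ hκK using fun D => hKm (a D) (ha D)
  set h : ℕ → Mt := fun D => Matrix.diagonal (a D) * g * ir (κ D) with hh
  have hhK : ∀ D, h D ∈ K := hκK
  have hyd : ∀ D, (Matrix.diagonal (a D) * g).det = 1 := fun D => by
    rw [det_mul, ha D, hg, one_mul]
  have hhd : ∀ D, (h D).det = 1 := fun D => by
    simp only [hh]
    rw [det_mul, hyd, det_ir (hκ D), one_mul]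
  have hhS : ∀ D, h D ∈ orbitSet g := fun D => ⟨a D, ha D, κ D, hκ D, rfl⟩
  set F : Ultrafilter ℕ := hyperfilter ℕ with hF
  have hFle : (F : Filter ℕ) ≤ atTop := Nat.hyperfilter_le_atTop
  obtain ⟨h0, -, hlim⟩ := ult_cpt F hK h (Eventually.of_forall hhK)
  have hh0S : h0 ∈ closure (orbitSet g) :=
    isClosed_closure.mem_of_tendsto hlim (Eventually.of_forall fun D => subset_closure (hhS D))
  have hh0d := hS.det h0 hh0S
  set Y' : ℕ → Zt := fun D => (κ D).adjugate * Y D * κ D with hY'
  have hY'b : ∀ D i j, |(ir (Y' D)) i j| ≤ 18 * C ^ 3 * T := fun D i j =>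
    conj_bound (hyd D) (hκ D) hT (fun i j => hC _ (hhK D) i j) (hP D) (hPT D) i j
  have hconst : ∀ i, ∃ w, ∀ᶠ n in (F : Filter ℕ), (Y' n) i = w := by
    intro i
    exact ult_vec F (fun n => (Y' n) i) _ (Eventually.of_forall fun n j => hY'b n i j)
  choose w hw using hconst
  set Y0 : Zt := Matrix.of w with hY0
  have hev : ∀ᶠ n in (F : Filter ℕ), Y' n = Y0 := by
    have h2 : ∀ᶠ n in (F : Filter ℕ), ∀ i, (Y' n) i = w i := by
      rw [eventually_all]; exact hw
    filter_upwards [h2] with n hn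
    ext i j
    rw [hn i]; rfl
  have hY0n : NoEig Y0 := by
    obtain ⟨n, hn⟩ := hev.exists
    rw [← hn]
    exact noEig_conj (hκ n) (hY n)
  have hPh : ∀ D, P D = h D * ir (Y' D) * (h D)⁻¹ := by
    intro D
    have e2 : P D * h D = h D * ir (Y' D) := by
      calc P D * h D = Matrix.diagonal (a D) * g * ir (Y D) * ir (κ D) := by
            simp only [hh]; rw [← mul_assoc, hP D]
        _ = Matrix.diagonal (a D) * g * (ir (κ D) * ir (κ D).adjugate) * ir (Y D) * ir (κ D) := by
            rw [ir_mul_adj (hκ D), mul_one]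
        _ = h D * ir (Y' D) := by
            simp only [hh, hY']; rw [ir_mul, ir_mul]; simp only [mul_assoc]
    rw [← e2, mul_assoc, mul_inv_one (hhd D), mul_one]
  set G : Mt := h0 * ir Y0 * h0⁻¹ with hG
  have hPlim : Tendsto P F (𝓝 G) := by
    have h1 : Tendsto (fun D => h D * ir Y0 * (h D)⁻¹) F (𝓝 G) :=
      tendsto_mul' (tendsto_mul' hlim tendsto_const_nhds)
        (tendsto_inv hlim (Eventually.of_forall hhd) hh0d)
    refine h1.congr' ?_
    filter_upwards [hev] with n hn
    rw [hPh n, hn]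
  set q : ℕ → Fin 3 → ℝ := fun D i => a' D i * (a D i)⁻¹ with hq
  have hane : ∀ D i, a D i ≠ 0 := fun D i => diag_ne (ha D) i
  have hane' : ∀ D i, a' D i ≠ 0 := fun D i => diag_ne (ha' D) i
  have hqP : ∀ D i j, P' D i j * (a' D j * (a D j)⁻¹) = a' D i * (a D i)⁻¹ * P D i j := by
    intro D i j
    obtain ⟨i1, i2, i3⟩ := diag_inv (ha D)
    have e1 : P' D * Matrix.diagonal (a' D) * g = Matrix.diagonal (a' D) * g * ir (Y D) := by
      rw [mul_assoc]; exact (hP' D).symm
    have e2 : g * ir (Y D) = Matrix.diagonal (fun i => (a D i)⁻¹) *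
        (P D * (Matrix.diagonal (a D) * g)) := by
      rw [← hP D, ← mul_assoc, ← mul_assoc, i2, one_mul]
    have e3 : P' D * Matrix.diagonal (a' D) * g
        = Matrix.diagonal (a' D) * (Matrix.diagonal (fun i => (a D i)⁻¹) *
        (P D * Matrix.diagonal (a D))) * g := by
      rw [e1, mul_assoc, e2]; simp only [mul_assoc]
    have e4 : P' D * Matrix.diagonal (a' D)
        = Matrix.diagonal (a' D) * (Matrix.diagonal (fun i => (a D i)⁻¹) *
        (P D * Matrix.diagonal (a D))) := by
      have := congrArg (fun M => M * g⁻¹) e3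
      rwa [mul_assoc, mul_inv_one hg, mul_one, mul_assoc _ g, mul_inv_one hg, mul_one] at this
    have e5 := congrFun (congrFun e4 i) j
    rw [mul_diagonal, diagonal_mul, diagonal_mul, mul_diagonal] at e5
    have := hane D j
    calc P' D i j * (a' D j * (a D j)⁻¹) = (P' D i j * a' D j) * (a D j)⁻¹ := by ring
      _ = a' D i * ((a D i)⁻¹ * (P D i j * a D j)) * (a D j)⁻¹ := by rw [e5]
      _ = a' D i * (a D i)⁻¹ * P D i j := by field_simp
  -- exponents
  set x : ℕ → Fin 3 → ℝ := fun D i => Real.log |a' D i| - Real.log |a D i| with hx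
  have hsum : ∀ D, x D 0 + x D 1 + x D 2 = 0 := by
    intro D
    have key : ∀ c : Fin 3 → ℝ, (Matrix.diagonal c).det = 1 →
        Real.log |c 0| + Real.log |c 1| + Real.log |c 2| = 0 := by
      intro c hc
      have h0 := diag_ne hc 0
      have h1 := diag_ne hc 1
      have h2 := diag_ne hc 2
      rw [det_diagonal3] at hc
      rw [← Real.log_mul (abs_ne_zero.mpr h0) (abs_ne_zero.mpr h1),
        ← Real.log_mul (mul_ne_zero (abs_ne_zero.mpr h0) (abs_ne_zero.mpr h1))
          (abs_ne_zero.mpr h2), ← abs_mul, ← abs_mul, hc]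
      simp
    have h1 := key _ (ha D)
    have h2 := key _ (ha' D)
    simp only [hx]
    linarith
  have hent : ∀ (D : ℕ) (i j : Fin 3), ((D : ℝ) / 2 ≤ x D i - x D j) → |P D i j| ≤ T * Real.exp (-((D : ℝ) / 2)) := by
    intro D i j hij
    have hqi : |a' D i * (a D i)⁻¹| = Real.exp (x D i) := by
      simp only [hx]
      rw [Real.exp_sub, Real.exp_log (abs_pos.mpr (hane' D i)),
        Real.exp_log (abs_pos.mpr (hane D i)), abs_mul, abs_inv, div_eq_mul_inv]
    have hqj : |a' D j * (a D j)⁻¹| = Real.exp (x D j) := by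
      simp only [hx]
      rw [Real.exp_sub, Real.exp_log (abs_pos.mpr (hane' D j)),
        Real.exp_log (abs_pos.mpr (hane D j)), abs_mul, abs_inv, div_eq_mul_inv]
    have h1 := congrArg abs (hqP D i j)
    rw [abs_mul, hqj, abs_mul, hqi] at h1
    have h2 : |P D i j| = |P' D i j| * Real.exp (x D j - x D i) := by
      rw [Real.exp_sub]
      have := (Real.exp_pos (x D i)).ne'
      field_simp
      linarith
    rw [h2]
    exact mul_le_mul (hPT' D i j) (Real.exp_le_exp.mpr (by linarith)) (Real.exp_pos _).le hT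
  have hzero : ∀ i j, (∀ᶠ D in (F : Filter ℕ), ((D : ℕ) : ℝ) / 2 ≤ x D i - x D j) → G i j = 0 := by
    intro i j hij
    have h1 : Tendsto (fun D => |P D i j|) F (𝓝 |G i j|) := (tendsto_entry hPlim i j).abs
    have h2 : Tendsto (fun D : ℕ => T * Real.exp (-((D : ℝ) / 2))) F (𝓝 (T * 0)) := by
      refine Tendsto.const_mul T ?_
      refine Tendsto.mono_left ?_ hFle
      refine Real.tendsto_exp_neg_atTop_nhds_zero.comp ?_
      exact tendsto_natCast_atTop_atTop.atTop_div_const (by norm_num)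
    rw [mul_zero] at h2
    have h3 : |G i j| ≤ 0 := by
      refine le_of_tendsto_of_tendsto h1 h2 ?_
      filter_upwards [hij] with D hD
      exact hent D i j hD
    exact abs_eq_zero.mp (le_antisymm h3 (abs_nonneg _))
  have hidx : ∀ D : ℕ, ∃ p : Fin 3 × Bool, (p.2 = true → ∀ j, j ≠ p.1 → (D : ℝ) / 2 ≤ x D p.1 - x D j) ∧
      (p.2 = false → ∀ j, j ≠ p.1 → (D : ℝ) / 2 ≤ x D j - x D p.1) := by
    intro D
    obtain ⟨l, hl | hl⟩ := ext_index_quant (hsum D) (hfar D)
    · exact ⟨(l, true), fun _ => hl, fun h => by simp at h⟩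
    · exact ⟨(l, false), fun h => by simp at h, fun _ => hl⟩
  choose p hp1 hp2 using hidx
  obtain ⟨⟨l, bo⟩, -, hpe⟩ := ult_fin F p Set.univ Set.finite_univ
    (Eventually.of_forall fun _ => mem_univ _)
  have hl : (∀ j, j ≠ l → G l j = 0) ∨ (∀ j, j ≠ l → G j l = 0) := by
    cases bo with
    | true =>
      left
      intro j hj
      refine hzero l j ?_
      filter_upwards [hpe] with D hD
      have := hp1 D (by rw [hD]) j (by rw [hD]; exact hj)
      rw [hD] at this
      exact this
    | false =>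
      right
      intro j hj
      refine hzero j l ?_
      filter_upwards [hpe] with D hD
      have := hp2 D (by rw [hD]) j (by rw [hD]; exact hj)
      rw [hD] at this
      exact this
  have hb0 : BoundedOrbit h0 := by
    obtain ⟨K', hK', hK'm⟩ := hS.cpt
    exact ⟨K', hK', fun d hd => hK'm _ (hS.left _ hh0S d hd)⟩
  have hGh : h0 * ir Y0 = G * h0 := by
    rw [hG, mul_assoc, inv_mul_one hh0d, mul_one]
  have hcl : IsClosed (orbitSet h0) := closed_of_G hh0d hb0 hY0n hGh hl
  have hT' : Bd (orbitSet h0) := by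
    have := (hS.closure_orbit hh0S).2
    rwa [hcl.closure_eq] at this
  have hmem : h0 ∈ orbitSet g := isol hS hh0S hcl (loc_of_closed hT')
  rw [← orbit_eq hmem]
  exact hcl

end M3D
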