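import Pool.Agent.M3D.Crit

/-!
# Chains of points of the diagonal group with small almost diagonal automorphs
-/

set_option autoImplicit false

open Matrix Filter Topology Set

namespace M3D

open Margulis3 M3C

/-- a chain of diagonal matrices: consecutive ones differ by factors at most `B`, the first and the
last one differ by a factor at least `L` in some entry -/
def Chain (B L : ℝ) (N : ℕ) (a : ℕ → Fin 3 → ℝ) : Prop :=
  (∀ n, (Matrix.diagonal (a n)).det = 1) ∧
  (∀ n < N, ∀ i, |a (n + 1) i| ≤ B * |a n i| ∧ |a n i| ≤ B * |a (n + 1) i|) ∧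
  ∃ i, L * |a 0 i| ≤ |a N i| ∨ L * |a N i| ≤ |a 0 i|

/-- a coloured chain of real numbers with small steps and large displacement has two distant
points of the same colour -/
lemma colour_chain {κ : Type*} [DecidableEq κ] (x : ℕ → ℝ) (col : ℕ → κ) {D β : ℝ} {N : ℕ}
    (hD : 0 ≤ D) (hβ : 0 ≤ β) (hstep : ∀ n < N, |x (n + 1) - x n| ≤ β)
    (hcol : ∀ n ≤ N, ∀ m ≤ N, col n = col m → |x m - x n| ≤ D) :
    ∀ (s : Finset κ) (n : ℕ), n ≤ N → (∀ m, n ≤ m → m ≤ N → col m ∈ s) →
      |x N - x n| ≤ s.card * (D + β) := by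
  intro s
  induction s using Finset.strongInduction with
  | H s ih =>
    intro n hn hs
    classical
    set S : Finset ℕ := (Finset.range (N + 1)).filter (fun m => col m = col n) with hS
    have hnS : n ∈ S := by
      rw [hS, Finset.mem_filter, Finset.mem_range]
      exact ⟨by omega, rfl⟩
    set m := S.max' ⟨n, hnS⟩ with hm
    have hmS : m ∈ S := Finset.max'_mem _ _
    have hnm : n ≤ m := Finset.le_max' _ _ hnS
    rw [hS, Finset.mem_filter, Finset.mem_range] at hmS
    have hmN : m ≤ N := by omega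
    have h1 : |x m - x n| ≤ D := hcol n hn m hmN hmS.2.symm
    have hcn : col n ∈ s := hs n le_rfl hn
    have hcard : 1 ≤ (s.card : ℝ) := by
      have : 1 ≤ s.card := Finset.card_pos.mpr ⟨_, hcn⟩
      exact_mod_cast this
    rcases Nat.eq_or_lt_of_le hmN with h2 | h2
    · rw [← h2]
      nlinarith
    · have h3 := ih (s.erase (col n)) (Finset.erase_ssubset hcn) (m + 1) (by omega) (by
        intro k hk1 hk2
        rw [Finset.mem_erase]
        refine ⟨?_, hs k (by omega) hk2⟩
        intro hck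
        have hkS : k ∈ S := by
          rw [hS, Finset.mem_filter, Finset.mem_range]
          exact ⟨by omega, hck⟩
        have := Finset.le_max' _ _ hkS
        omega)
      have h4 := hstep m h2
      rw [Finset.card_erase_of_mem hcn] at h3
      have h5 : ((s.card - 1 : ℕ) : ℝ) = (s.card : ℝ) - 1 := by
        rw [Nat.cast_sub (Finset.card_pos.mpr ⟨_, hcn⟩)]; simp
      rw [h5] at h3
      have h6 : x N - x n = (x N - x (m + 1)) + (x (m + 1) - x m) + (x m - x n) := by ring
      have h7 := abs_add_le ((x N - x (m + 1)) + (x (m + 1) - x m)) (x m - x n)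
      have h8 := abs_add_le (x N - x (m + 1)) (x (m + 1) - x m)
      rw [h6]
      linarith

/-- a diagonal matrix far from the compact part has a strongly dominant or a strongly dominated
coordinate -/
lemma ext_index_quant {x : Fin 3 → ℝ} {D : ℝ} (hsum : x 0 + x 1 + x 2 = 0)
    (h : ∃ i, D ≤ |x i|) :
    ∃ l, (∀ j, j ≠ l → D / 2 ≤ x l - x j) ∨ (∀ j, j ≠ l → D / 2 ≤ x j - x l) := by
  by_contra hcon
  push Not at hcon
  have key : |x 0| < D ∧ |x 1| < D ∧ |x 2| < D := by
    obtain ⟨⟨j0, hj0, h0⟩, ⟨k0, hk0, h0'⟩⟩ := hcon 0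
    obtain ⟨⟨j1, hj1, h1⟩, ⟨k1, hk1, h1'⟩⟩ := hcon 1
    obtain ⟨⟨j2, hj2, h2⟩, ⟨k2, hk2, h2'⟩⟩ := hcon 2
    simp only [abs_lt]
    fin_cases j0 <;> first | exact absurd rfl hj0 | skip
    all_goals fin_cases k0 <;> first | exact absurd rfl hk0 | skip
    all_goals fin_cases j1 <;> first | exact absurd rfl hj1 | skip
    all_goals fin_cases k1 <;> first | exact absurd rfl hk1 | skip
    all_goals fin_cases j2 <;> first | exact absurd rfl hj2 | skip
    all_goals fin_cases k2 <;> first | exact absurd rfl hk2 | skip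
    all_goals
      simp only [Fin.zero_eta, Fin.mk_one, Fin.reduceFinMk] at h0 h0' h1 h1' h2 h2'
      refine ⟨⟨?_, ?_⟩, ⟨?_, ?_⟩, ⟨?_, ?_⟩⟩ <;> linarith
  obtain ⟨i, hi⟩ := h
  obtain ⟨a, b, c⟩ := key
  fin_cases i
  · exact absurd hi (not_le.mpr a)
  · exact absurd hi (not_le.mpr b)
  · exact absurd hi (not_le.mpr c)


end M3D
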