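import Pool.Agent.M3D.Criterion

/-!
# Columns; pigeonhole in windows of the diagonal group
-/

set_option autoImplicit false

open Matrix Filter Topology Set

namespace M3D

open Margulis3 M3C
open Pool.Agent.Results.MP_c12988_an.CubicForm (star3 star3_mul star3_diag star3_det bounded_star
  closed_star)

lemma star3_relation {y : Mt} (hyd : y.det = 1) {X : Zt} {P : Mt} (hP : y * ir X = P * y) :
    star3 y * ir Xᵀ = Pᵀ * star3 y := by
  have h3 : y * y.adjugate = 1 := by rw [mul_adjugate, hyd, one_smul]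
  have h4 : y.adjugate * y = 1 := by rw [adjugate_mul, hyd, one_smul]
  have h5 : ir X * y.adjugate = y.adjugate * P := by
    calc ir X * y.adjugate = y.adjugate * (y * ir X) * y.adjugate := by
          rw [← mul_assoc, h4, one_mul]
      _ = y.adjugate * P * (y * y.adjugate) := by rw [hP]; simp only [mul_assoc]
      _ = y.adjugate * P := by rw [h3, mul_one]
  have h6 : ir Xᵀ = (ir X)ᵀ := rfl
  unfold Pool.Agent.Results.MP_c12988_an.CubicForm.star3
  rw [h6, ← transpose_mul, ← transpose_mul, h5]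

theorem criterion_col {g : Mt} (hg : g.det = 1) (hb : BoundedOrbit g) (l : Fin 3) :
    ∃ c₀ : ℝ, 0 < c₀ ∧ ∀ B T ε : ℝ, 1 ≤ B → 1 ≤ T → B ^ 12 * ε * T ^ 5 ≤ c₀ →
      (∀ L : ℝ, ∃ (N : ℕ) (a : ℕ → Fin 3 → ℝ), Chain B L N a ∧ ∀ n ≤ N, ∃ (X : Zt) (P : Mt),
        (∀ m : ℤ, X ≠ Matrix.diagonal (fun _ => m)) ∧
        Matrix.diagonal (a n) * g * ir X = P * (Matrix.diagonal (a n) * g) ∧
        (∀ i j, |P i j| ≤ T) ∧ ∀ j, j ≠ l → |P j l| ≤ ε) → IsClosed (orbitSet g) := by
  obtain ⟨c₀, hc₀, h⟩ := criterion_row (g := star3 g) (star3_det g hg) (bounded_star g hb) l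
  refine ⟨c₀, hc₀, fun B T ε hB hT hBT H => ?_⟩
  refine closed_star g hg (h B T ε hB hT hBT fun L => ?_)
  obtain ⟨N, a, ⟨hdet, hstep, i, hfar⟩, hX⟩ := H L
  have hpos : ∀ n i, 0 < |a n i| := fun n i => abs_pos.mpr (diag_ne (hdet n) i)
  refine ⟨N, fun n i => (a n i)⁻¹, ⟨fun n => (diag_inv (hdet n)).1, fun n hn i => ?_, i, ?_⟩,
    fun n hn => ?_⟩
  · obtain ⟨s1, s2⟩ := hstep n hn i
    have p1 := hpos n i
    have p2 := hpos (n + 1) i
    rw [abs_inv, abs_inv]
    constructor
    · rw [← div_eq_mul_inv, le_div_iff₀ p1, inv_mul_le_iff₀ p2, mul_comm]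
      exact s2
    · rw [← div_eq_mul_inv, le_div_iff₀ p2, inv_mul_le_iff₀ p1, mul_comm]
      exact s1
  · have p1 := hpos 0 i
    have p2 := hpos N i
    rw [abs_inv, abs_inv]
    rcases hfar with hfar | hfar
    · right
      rw [← div_eq_mul_inv, div_le_iff₀ p2, le_inv_mul_iff₀ p1, mul_comm]
      exact hfar
    · left
      rw [← div_eq_mul_inv, div_le_iff₀ p1, le_inv_mul_iff₀ p2, mul_comm]
      exact hfar
  · obtain ⟨X, P, h1, h2, h3, h4⟩ := hX n hn
    refine ⟨Xᵀ, Pᵀ, fun m hm => h1 m ?_, ?_, fun i j => h3 j i, fun j hj => h4 j hj⟩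
    · have := congrArg Matrix.transpose hm
      rwa [transpose_transpose, diagonal_transpose] at this
    · have h5 : Matrix.diagonal (fun i => (a n i)⁻¹) * star3 g
          = star3 (Matrix.diagonal (a n) * g) := by
        rw [star3_mul, star_inv (hdet n)]
      rw [h5]
      exact star3_relation (by rw [det_mul, hdet n, hg, one_mul]) h2

/-- the data produced by a coincidence -/
def Aut (col : Bool) (g : Mt) (a : Fin 3 → ℝ) (l : Fin 3) (T ε : ℝ) : Prop :=
  ∃ (X : Zt) (P : Mt), (∀ m : ℤ, X ≠ Matrix.diagonal (fun _ => m)) ∧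
    Matrix.diagonal a * g * ir X = P * (Matrix.diagonal a * g) ∧
    (∀ i j, |P i j| ≤ T) ∧ ∀ j, j ≠ l → |if col then P j l else P l j| ≤ ε

theorem criterion {g : Mt} (hg : g.det = 1) (hb : BoundedOrbit g) (l : Fin 3) (col : Bool) :
    ∃ c₀ : ℝ, 0 < c₀ ∧ ∀ B T ε : ℝ, 1 ≤ B → 1 ≤ T → B ^ 12 * ε * T ^ 5 ≤ c₀ →
      (∀ L : ℝ, ∃ (N : ℕ) (a : ℕ → Fin 3 → ℝ), Chain B L N a ∧ ∀ n ≤ N, Aut col g (a n) l T ε) →
      IsClosed (orbitSet g) := by
  cases col with
  | true => simpa [Aut] using criterion_col hg hb l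
  | false => simpa [Aut] using criterion_row hg hb l

lemma scalar_one {X : Zt} (hX : X.det = 1) {m : ℤ} (h : X = Matrix.diagonal (fun _ => m)) :
    X = 1 := by
  rw [h] at hX
  have h1 : m ^ 3 = 1 := by
    rw [det_diagonal] at hX
    simpa using hX
  have h2 : m = 1 := by
    have h3 : (m - 1) * (m ^ 2 + m + 1) = 0 := by linarith [h1, (by ring : (m - 1) * (m ^ 2 + m + 1) = m ^ 3 - 1)]
    rcases mul_eq_zero.mp h3 with h4 | h4
    · linarith
    · exfalso
      nlinarith [sq_nonneg (2 * m + 1)]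
  rw [h, h2]
  exact diagonal_one

/-- the automorph attached to two points with reduced representatives -/
lemma two_points {y : Mt} (hyd : y.det = 1) {s s' : Fin 3 → ℝ} (hs : (Matrix.diagonal s).det = 1)
    (hs' : (Matrix.diagonal s').det = 1) {γ γ' : Zt} (hγ : γ.det = 1) (hγ' : γ'.det = 1)
    {C : ℝ} (hC : ∀ i j, |(Matrix.diagonal s * y * ir γ) i j| ≤ C)
    (hC' : ∀ i j, |(Matrix.diagonal s' * y * ir γ') i j| ≤ C)
    (hnt : ∃ i, 6 * C ^ 3 * |s i| < |s' i|) :
    let M := Matrix.diagonal s * y * ir γ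
    let M' := Matrix.diagonal s' * y * ir γ'
    (∀ m : ℤ, γ' * γ.adjugate ≠ Matrix.diagonal (fun _ => m)) ∧
    y * ir (γ' * γ.adjugate) = (Matrix.diagonal (fun i => (s' i)⁻¹) * (M' * M.adjugate)
      * Matrix.diagonal s) * y ∧ (∀ i j, |(M' * M.adjugate) i j| ≤ 6 * C ^ 3) := by
  intro M M'
  have hMd : M.det = 1 := by
    simp only [M]; rw [det_mul, det_mul, hs, hyd, det_ir hγ]; norm_num
  have hMa : M.adjugate * M = 1 := by rw [adjugate_mul, hMd, one_smul]
  obtain ⟨i1, i2, i3⟩ := diag_inv hs'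
  have hE : ∀ i j, |(M' * M.adjugate) i j| ≤ 6 * C ^ 3 := by
    intro i j
    have hC0 : 0 ≤ C := (abs_nonneg _).trans (hC 0 0)
    have := mul_entry_le (P := M') (h := M.adjugate) (T := C) (C := 2 * C ^ 2) (i := i) (j := j)
      hC0 (hC' i) (fun k => adj_entry_le hC k j)
    calc |(M' * M.adjugate) i j| ≤ 3 * C * (2 * C ^ 2) := this
      _ = 6 * C ^ 3 := by ring
  refine ⟨?_, ?_, hE⟩
  · intro m hm
    have h1 := scalar_one (by rw [det_mul, hγ', adj_det hγ, one_mul]) hm
    have h2 : γ' = γ := by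
      have h3 : γ' * γ.adjugate * γ = γ' := by rw [mul_assoc, adj_mul hγ, mul_one]
      rw [h1, one_mul] at h3
      exact h3.symm
    obtain ⟨i, hi⟩ := hnt
    have h4 : (M' * M.adjugate) * Matrix.diagonal s = Matrix.diagonal s' := by
      have h5 : (M' * M.adjugate) * M = M' := by rw [mul_assoc, hMa, mul_one]
      have h6 : M' = Matrix.diagonal s' * (y * ir γ) := by
        simp only [M']; rw [h2, mul_assoc]
      have h7 : M = Matrix.diagonal s * (y * ir γ) := by
        simp only [M]; rw [mul_assoc]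
      have hN : (y * ir γ) * (y * ir γ)⁻¹ = 1 := mul_inv_one (by
        rw [det_mul, hyd, det_ir hγ, one_mul])
      calc (M' * M.adjugate) * Matrix.diagonal s
          = (M' * M.adjugate) * (Matrix.diagonal s * (y * ir γ)) * (y * ir γ)⁻¹ := by
            rw [mul_assoc (M' * M.adjugate), mul_assoc (Matrix.diagonal s), hN, mul_one]
        _ = M' * (y * ir γ)⁻¹ := by rw [← h7, h5]
        _ = Matrix.diagonal s' := by rw [h6, mul_assoc, hN, mul_one]
    have h8 := congrFun (congrFun h4 i) i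
    rw [mul_diagonal, diagonal_apply_eq] at h8
    have h9 := hE i i
    have h10 : |(M' * M.adjugate) i i| * |s i| = |s' i| := by rw [← abs_mul, h8]
    have h11 := mul_le_mul_of_nonneg_right h9 (abs_nonneg (s i))
    linarith
  · calc y * ir (γ' * γ.adjugate)
        = (Matrix.diagonal (fun i => (s' i)⁻¹) * Matrix.diagonal s') * y * ir (γ' * γ.adjugate) := by
          rw [i2, one_mul]
      _ = Matrix.diagonal (fun i => (s' i)⁻¹) * (M' * ir γ.adjugate) := by
          simp only [M']; rw [ir_mul]; simp only [mul_assoc]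
      _ = Matrix.diagonal (fun i => (s' i)⁻¹) * ((M' * M.adjugate) * (M * ir γ.adjugate)) := by
          have : M' = (M' * M.adjugate) * M := by rw [mul_assoc, hMa, mul_one]
          conv_lhs => rw [this]
          simp only [mul_assoc]
      _ = (Matrix.diagonal (fun i => (s' i)⁻¹) * (M' * M.adjugate) * Matrix.diagonal s) * y := by
          have : M * ir γ.adjugate = Matrix.diagonal s * y := by
            simp only [M]; rw [mul_assoc, ir_mul_adj hγ, mul_one]
          rw [this]; simp only [mul_assoc]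

end M3D
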