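import Pool.Agent.M3D.Alg

/-!
# A bounded orbit with small almost commuting integral automorphs is closed
-/

set_option autoImplicit false

open Matrix Filter Topology Set

namespace M3D

open Margulis3 M3C

lemma prod_small {l : Fin 3} {z : Fin 3 → ℝ} {a b : ℝ} (hl : |z l| ≤ a) (h : ∀ i, |z i| ≤ b) :
    |∏ i, z i| ≤ a * b ^ 2 := by
  have ha : 0 ≤ a := (abs_nonneg _).trans hl
  have hb : 0 ≤ b := (abs_nonneg _).trans (h 0)
  rw [Fin.prod_univ_three, abs_mul, abs_mul]
  have h0 := h 0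
  have h1 := h 1
  have h2 := h 2
  have key : ∀ x y w : ℝ, 0 ≤ x → 0 ≤ y → 0 ≤ w → x ≤ a → y ≤ b → w ≤ b →
      x * (y * w) ≤ a * b ^ 2 := by
    intro x y w hx hy hw hxa hyb hwb
    have h3 : y * w ≤ b * b := mul_le_mul hyb hwb hw hb
    calc x * (y * w) ≤ a * (b * b) := mul_le_mul hxa h3 (mul_nonneg hy hw) ha
      _ = a * b ^ 2 := by ring
  fin_cases l
  · have := key _ _ _ (abs_nonneg (z 0)) (abs_nonneg (z 1)) (abs_nonneg (z 2)) hl h1 h2
    linarith
  · have := key _ _ _ (abs_nonneg (z 1)) (abs_nonneg (z 0)) (abs_nonneg (z 2)) hl h0 h2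
    linarith
  · have := key _ _ _ (abs_nonneg (z 2)) (abs_nonneg (z 0)) (abs_nonneg (z 1)) hl h0 h1
    linarith

lemma mul_entry_le {P h : Mt} {T C : ℝ} {i j : Fin 3} (hT : 0 ≤ T) (hP : ∀ k, |P i k| ≤ T)
    (hh : ∀ k, |h k j| ≤ C) : |(P * h) i j| ≤ 3 * T * C := by
  rw [Matrix.mul_apply]
  refine (Finset.abs_sum_le_sum_abs _ _).trans ?_
  have h1 : ∀ k ∈ Finset.univ, |P i k * h k j| ≤ T * C := by
    intro k _
    rw [abs_mul]
    exact mul_le_mul (hP k) (hh k) (abs_nonneg _) hT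
  refine (Finset.sum_le_sum h1).trans ?_
  simp
  linarith

/-- the basic principle: an integer matrix acting on the lattice with one tiny row is zero -/
lemma zero_of_small {y : Mt} {C δ ε T : ℝ} {κ : Zt} (hκ : κ.det = 1)
    (hh : ∀ i j, |(y * ir κ) i j| ≤ C)
    (hlow : ∀ v : Fin 3 → ℤ, v ≠ 0 → δ ≤ |prodForm y (cv v)|) {X : Zt} {P : Mt}
    (hP : y * ir X = P * y) {l : Fin 3} (h1 : ∀ j, |P l j| ≤ ε) (h2 : ∀ i j, |P i j| ≤ T)
    (hs : 27 * C ^ 3 * ε * T ^ 2 < δ) : X = 0 := by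
  have hε : 0 ≤ ε := (abs_nonneg _).trans (h1 0)
  have hT : 0 ≤ T := (abs_nonneg _).trans (h2 0 0)
  have hXκ : X * κ = 0 := by
    ext i j
    by_contra hne
    set v : Fin 3 → ℤ := fun i => (X * κ) i j with hv
    have hv0 : v ≠ 0 := by
      intro h0
      exact hne (congrFun h0 i)
    have h3 := hlow v hv0
    have h4 : ∀ i, (y *ᵥ cv v) i = (P * (y * ir κ)) i j := by
      intro i
      have e1 : P * (y * ir κ) = y * ir (X * κ) := by
        rw [← mul_assoc, ← hP, mul_assoc, ir_mul]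
      rw [e1]
      rfl
    have h5 : |prodForm y (cv v)| ≤ (3 * ε * C) * (3 * T * C) ^ 2 := by
      unfold prodForm
      refine prod_small (l := l) ?_ ?_
      · rw [h4]; exact mul_entry_le hε h1 (fun k => hh k j)
      · intro i
        rw [h4]; exact mul_entry_le hT (h2 i) (fun k => hh k j)
    have h6 : (3 * ε * C) * (3 * T * C) ^ 2 = 27 * C ^ 3 * ε * T ^ 2 := by ring
    linarith
  have h7 : X * κ * κ.adjugate = X := by
    rw [mul_assoc, mul_adj hκ, mul_one]
  rw [← h7, hXκ, zero_mul]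

lemma ir_sub (a b : Zt) : ir (a - b) = ir a - ir b := by
  ext i j
  simp [ir]

lemma ir_diag (m : ℤ) : ir (Matrix.diagonal (fun _ => m)) = Matrix.diagonal (fun _ => (m : ℝ)) := by
  ext i j
  by_cases h : i = j
  · subst h; simp [ir]
  · simp [ir, h]

/-- entries of a commutator of two matrices with nearly diagonal `l`-th row -/
lemma comm_row {P Q : Mt} {l : Fin 3} {ε T : ℝ} (hP : ∀ i j, |P i j| ≤ T)
    (hQ : ∀ i j, |Q i j| ≤ T) (hPl : ∀ j, j ≠ l → |P l j| ≤ ε) (hQl : ∀ j, j ≠ l → |Q l j| ≤ ε)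
    (j : Fin 3) : |(P * Q - Q * P) l j| ≤ 6 * ε * T := by
  have hT : 0 ≤ T := (abs_nonneg _).trans (hP 0 0)
  obtain ⟨j', hj'⟩ : ∃ j', j' ≠ l := by
    fin_cases l
    · exact ⟨1, by decide⟩
    · exact ⟨0, by decide⟩
    · exact ⟨0, by decide⟩
  have hε : 0 ≤ ε := (abs_nonneg _).trans (hPl j' hj')
  have h1 : (P * Q - Q * P) l j = ∑ k, (P l k * Q k j - Q l k * P k j) := by
    rw [Matrix.sub_apply, Matrix.mul_apply, Matrix.mul_apply, Finset.sum_sub_distrib]
  rw [h1]
  refine (Finset.abs_sum_le_sum_abs _ _).trans ?_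
  have h2 : ∀ k ∈ Finset.univ, |P l k * Q k j - Q l k * P k j| ≤ 2 * ε * T := by
    intro k _
    have h3 := abs_sub (P l k * Q k j) (Q l k * P k j)
    by_cases hk : k = l
    · subst hk
      by_cases hj : j = k
      · subst hj
        have : P j j * Q j j - Q j j * P j j = 0 := by ring
        rw [this, abs_zero]; positivity
      · rw [abs_mul, abs_mul] at h3
        have h4 : |P k k| * |Q k j| ≤ T * ε := mul_le_mul (hP k k) (hQl j hj) (abs_nonneg _) hT
        have h5 : |Q k k| * |P k j| ≤ T * ε := mul_le_mul (hQ k k) (hPl j hj) (abs_nonneg _) hT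
        linarith
    · rw [abs_mul, abs_mul] at h3
      have h4 : |P l k| * |Q k j| ≤ ε * T := mul_le_mul (hPl k hk) (hQ k j) (abs_nonneg _) hε
      have h5 : |Q l k| * |P k j| ≤ ε * T := mul_le_mul (hQl k hk) (hP k j) (abs_nonneg _) hε
      linarith
  refine (Finset.sum_le_sum h2).trans ?_
  simp
  linarith

lemma comm_all {P Q : Mt} {T : ℝ} (hP : ∀ i j, |P i j| ≤ T)
    (hQ : ∀ i j, |Q i j| ≤ T) (i j : Fin 3) : |(P * Q - Q * P) i j| ≤ 6 * T ^ 2 := by
  have hT : 0 ≤ T := (abs_nonneg _).trans (hP 0 0)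
  have h1 := mul_entry_le (i := i) (j := j) hT (hP i) (fun k => hQ k j)
  have h2 := mul_entry_le (i := i) (j := j) hT (hQ i) (fun k => hP k j)
  rw [Matrix.sub_apply]
  have h3 := abs_sub ((P * Q) i j) ((Q * P) i j)
  nlinarith

/-- two integer matrices acting with bounded entries and nearly diagonal `l`-th row commute -/
theorem commute_of_small {y : Mt} {C δ ε T : ℝ} {κ : Zt} (hκ : κ.det = 1)
    (hh : ∀ i j, |(y * ir κ) i j| ≤ C)
    (hlow : ∀ v : Fin 3 → ℤ, v ≠ 0 → δ ≤ |prodForm y (cv v)|) {X X' : Zt} {P P' : Mt}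
    (hP : y * ir X = P * y) (hP' : y * ir X' = P' * y) {l : Fin 3}
    (h1 : ∀ i j, |P i j| ≤ T) (h1' : ∀ i j, |P' i j| ≤ T)
    (h2 : ∀ j, j ≠ l → |P l j| ≤ ε) (h2' : ∀ j, j ≠ l → |P' l j| ≤ ε)
    (hs : 27 * C ^ 3 * (6 * ε * T) * (6 * T ^ 2) ^ 2 < δ) : X * X' = X' * X := by
  have h3 : y * ir (X * X' - X' * X) = (P * P' - P' * P) * y := by
    rw [ir_sub, ir_mul, ir_mul, mul_sub, sub_mul, ← mul_assoc, hP, ← mul_assoc, hP', mul_assoc,
      hP', mul_assoc, hP, mul_assoc, mul_assoc]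
  exact sub_eq_zero.mp (zero_of_small hκ hh hlow h3 (comm_row h1 h1' h2 h2') (comm_all h1 h1') hs)

lemma adj_entry_le {P : Mt} {T : ℝ} (hP : ∀ i j, |P i j| ≤ T) (i j : Fin 3) :
    |P.adjugate i j| ≤ 2 * T ^ 2 := by
  have hT : 0 ≤ T := (abs_nonneg _).trans (hP 0 0)
  have key : ∀ a b c d : ℝ, |a| ≤ T → |b| ≤ T → |c| ≤ T → |d| ≤ T →
      |a * b - c * d| ≤ 2 * T ^ 2 := by
    intro a b c d ha hb hc hd
    have h1 : |a * b| ≤ T * T := by rw [abs_mul]; exact mul_le_mul ha hb (abs_nonneg _) hT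
    have h2 : |c * d| ≤ T * T := by rw [abs_mul]; exact mul_le_mul hc hd (abs_nonneg _) hT
    have h3 := abs_sub (a * b) (c * d)
    nlinarith
  have key' : ∀ a b c d : ℝ, |a| ≤ T → |b| ≤ T → |c| ≤ T → |d| ≤ T →
      |-(a * b) + c * d| ≤ 2 * T ^ 2 := by
    intro a b c d ha hb hc hd
    have := key c d a b hc hd ha hb
    have e : -(a * b) + c * d = c * d - a * b := by ring
    rwa [e]
  rw [Matrix.adjugate_fin_three]
  fin_cases i <;> fin_cases j <;> simp only [Matrix.of_apply, Matrix.cons_val', Matrix.cons_val_zero,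
    Matrix.cons_val_one, Matrix.cons_val, Fin.zero_eta, Fin.mk_one, Fin.reduceFinMk] <;>
    first
      | exact key _ _ _ _ (hP _ _) (hP _ _) (hP _ _) (hP _ _)
      | exact key' _ _ _ _ (hP _ _) (hP _ _) (hP _ _) (hP _ _)

lemma adj_conj {y : Mt} (hyd : y.det = 1) {X : Zt} {P : Mt} (hP : y * ir X = P * y) :
    y * ir X.adjugate = P.adjugate * y := by
  have h1 : (ir X).adjugate = ir X.adjugate := by
    have h := RingHom.map_adjugate (Int.castRingHom ℝ) X
    rw [RingHom.mapMatrix_apply, RingHom.mapMatrix_apply] at h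
    exact h.symm
  have h2 : ir X.adjugate * y.adjugate = y.adjugate * P.adjugate := by
    rw [← h1, ← adjugate_mul_distrib, ← adjugate_mul_distrib, hP]
  have h3 : y * y.adjugate = 1 := by rw [mul_adjugate, hyd, one_smul]
  have h4 : y.adjugate * y = 1 := by rw [adjugate_mul, hyd, one_smul]
  calc y * ir X.adjugate = y * (ir X.adjugate * y.adjugate) * y := by
        rw [mul_assoc, mul_assoc, h4, mul_one]
    _ = P.adjugate * y := by rw [h2, ← mul_assoc, h3, one_mul]

lemma eig_bound {y : Mt} (hyd : y.det = 1) {X : Zt} {P : Mt} (hP : y * ir X = P * y) {T : ℝ}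
    (h1 : ∀ i j, |P i j| ≤ T) {m : ℤ} (hm : (X - Matrix.diagonal (fun _ => m)).det = 0) :
    |(m : ℝ)| ≤ 3 * T := by
  obtain ⟨w, hw0, hw⟩ := exists_mulVec_eq_zero_iff.mpr hm
  have hw1 : X *ᵥ w = m • w := by
    rw [sub_mulVec, sub_eq_zero] at hw
    rw [hw]
    funext i
    rw [mulVec_diagonal]; rfl
  set u : Fin 3 → ℝ := y *ᵥ cv w with hu
  have hu0 : u ≠ 0 := by
    intro h0
    have h2 : y⁻¹ *ᵥ u = cv w := by
      rw [hu, mulVec_mulVec, inv_mul_one hyd, one_mulVec]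
    rw [h0, mulVec_zero] at h2
    apply hw0
    funext j
    have := congrFun h2 j
    simp only [cv, Pi.zero_apply] at this
    exact_mod_cast this.symm
  have hPu : P *ᵥ u = (m : ℝ) • u := by
    rw [hu, mulVec_mulVec, ← hP, ← mulVec_mulVec, ir_mulVec, hw1]
    have : cv (m • w) = (m : ℝ) • cv w := by
      funext i
      simp [cv]
    rw [this, mulVec_smul]
  obtain ⟨i, hi⟩ := Finite.exists_max (fun i => |u i|)
  have hui : 0 < |u i| := by
    by_contra hcon
    push Not at hcon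
    apply hu0
    funext j
    have := (hi j).trans hcon
    exact abs_eq_zero.mp (le_antisymm this (abs_nonneg _))
  have hT : 0 ≤ T := (abs_nonneg _).trans (h1 0 0)
  have h3 : |(m : ℝ)| * |u i| ≤ 3 * T * |u i| := by
    have h4 := congrFun hPu i
    simp only [mulVec, dotProduct, Pi.smul_apply, smul_eq_mul] at h4
    rw [← abs_mul, ← h4]
    refine (Finset.abs_sum_le_sum_abs _ _).trans ?_
    have h5 : ∀ k ∈ Finset.univ, |P i k * u k| ≤ T * |u i| := by
      intro k _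
      rw [abs_mul]
      exact mul_le_mul (h1 i k) (hi k) (abs_nonneg _) hT
    refine (Finset.sum_le_sum h5).trans ?_
    simp
    linarith
  exact le_of_mul_le_mul_right h3 hui

/-- vanishing adjugate: all two by two minors vanish -/
lemma minors_of_adj {W : Zt} (h : W.adjugate = 0) (i j k l : Fin 3) :
    W i j * W k l = W i l * W k j := by
  rw [Matrix.adjugate_fin_three] at h
  have e00 := congrFun (congrFun h 0) 0
  have e01 := congrFun (congrFun h 0) 1
  have e02 := congrFun (congrFun h 0) 2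
  have e10 := congrFun (congrFun h 1) 0
  have e11 := congrFun (congrFun h 1) 1
  have e12 := congrFun (congrFun h 1) 2
  have e20 := congrFun (congrFun h 2) 0
  have e21 := congrFun (congrFun h 2) 1
  have e22 := congrFun (congrFun h 2) 2
  simp only [Matrix.of_apply, Matrix.cons_val', Matrix.cons_val_zero, Matrix.cons_val_one,
    Matrix.cons_val, Matrix.zero_apply] at e00 e01 e02 e10 e11 e12 e20 e21 e22
  fin_cases i <;> fin_cases k <;> fin_cases j <;> fin_cases l <;>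
    simp only [Fin.zero_eta, Fin.mk_one, Fin.reduceFinMk] <;> linarith

/-- an integer matrix of rank one is a product of a column and a row -/
lemma rank_one_factor {W : Zt} (hW : W ≠ 0)
    (h : ∀ i j k l, W i j * W k l = W i l * W k j) :
    ∃ p q : Fin 3 → ℤ, p ≠ 0 ∧ q ≠ 0 ∧ ∀ i j, W i j = p i * q j := by
  obtain ⟨a, b, hab⟩ : ∃ a b, W a b ≠ 0 := by
    by_contra hcon
    push Not at hcon
    exact hW (by ext i j; exact hcon i j)
  obtain ⟨p, hp, hp1⟩ := Finset.extract_gcd (s := (Finset.univ : Finset (Fin 3)))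
    (fun i => W i b) ⟨0, Finset.mem_univ _⟩
  set G : ℤ := (Finset.univ : Finset (Fin 3)).gcd (fun i => W i b) with hG
  have hpi : ∀ i, W i b = G * p i := fun i => hp i (Finset.mem_univ i)
  have hG0 : G ≠ 0 := by
    intro h0
    have := hpi a
    rw [h0, zero_mul] at this
    exact hab this
  have hpa : p a ≠ 0 := by
    intro h0
    have := hpi a
    rw [h0, mul_zero] at this
    exact hab this
  have hprop : ∀ i j k, W i j * p k = W k j * p i := by
    intro i j k
    have h1 := h i j k b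
    have h2 : G * (W i j * p k) = G * (W k j * p i) := by
      have e1 := hpi k
      have e2 := hpi i
      rw [e1, e2] at h1
      linarith
    exact mul_left_cancel₀ hG0 h2
  have hdvd : ∀ j, p a ∣ W a j := by
    intro j
    have h1 : p a ∣ (Finset.univ : Finset (Fin 3)).gcd (fun i => W a j * p i) := by
      refine Finset.dvd_gcd fun i _ => ?_
      exact ⟨W i j, by rw [← hprop i j a]; ring⟩
    rw [Finset.gcd_mul_left, hp1, mul_one] at h1
    exact (dvd_normalize_iff).mp h1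
  choose q hq using hdvd
  refine ⟨p, q, ?_, ?_, fun i j => ?_⟩
  · intro h0
    exact hpa (congrFun h0 a)
  · intro h0
    have := hq b
    rw [congrFun h0 b] at this
    simp at this
    exact hab this
  · have h1 := hprop i j a
    rw [hq j] at h1
    have h2 : p a * W i j = p a * (p i * q j) := by linarith
    exact mul_left_cancel₀ hpa h2

/-- a rank one integer matrix with one tiny row contradicts the lower bounds for the lattice and
its dual -/
lemma rank_one_bound {y : Mt} (hyd : y.det = 1) {δ δ' : ℝ} (hδ' : 0 ≤ δ')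
    (hlow : ∀ v : Fin 3 → ℤ, v ≠ 0 → δ ≤ |prodForm y (cv v)|)
    (hlow' : ∀ v : Fin 3 → ℤ, v ≠ 0 → δ' ≤ |prodForm y.adjugateᵀ (cv v)|)
    {W : Zt} {Q : Mt} (hQ : y * ir W = Q * y) (hW : W ≠ 0)
    (h : ∀ i j k l, W i j * W k l = W i l * W k j) {l : Fin 3} {ε T : ℝ}
    (h1 : ∀ i j, |Q i j| ≤ T) (h2 : ∀ j, j ≠ l → |Q l j| ≤ ε) : δ * δ' ≤ ε * T ^ 2 := by
  obtain ⟨p, q, hp, hq, hpq⟩ := rank_one_factor hW h
  have hT : 0 ≤ T := (abs_nonneg _).trans (h1 0 0)
  have hQe : ∀ i j, Q i j = (y *ᵥ cv p) i * (y.adjugateᵀ *ᵥ cv q) j := by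
    intro i j
    have h3 : y * y.adjugate = 1 := by rw [mul_adjugate, hyd, one_smul]
    have h4 : Q = y * ir W * y.adjugate := by rw [hQ, mul_assoc, h3, mul_one]
    rw [h4, mul_assoc, Matrix.mul_apply]
    have h5 : ∀ k, (ir W * y.adjugate) k j = cv p k * (y.adjugateᵀ *ᵥ cv q) j := by
      intro k
      rw [Matrix.mul_apply]
      simp only [mulVec, dotProduct, transpose_apply, Finset.mul_sum]
      refine Finset.sum_congr rfl fun m _ => ?_
      have : (ir W) k m = (p k : ℝ) * (q m : ℝ) := by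
        have h6 : (ir W) k m = ((W k m : ℤ) : ℝ) := rfl
        rw [h6, hpq k m]; push_cast; ring
      rw [this]
      simp only [cv]
      ring
    simp only [h5]
    simp only [mulVec, dotProduct, Finset.sum_mul]
    exact Finset.sum_congr rfl fun m _ => by ring
  have h6 := hlow p hp
  have h7 := hlow' q hq
  have h8 : δ * δ' ≤ |prodForm y (cv p)| * |prodForm y.adjugateᵀ (cv q)| :=
    mul_le_mul h6 h7 hδ' (abs_nonneg _)
  refine h8.trans ?_
  unfold prodForm
  rw [Fin.prod_univ_three, Fin.prod_univ_three, ← abs_mul]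
  set α := y *ᵥ cv p with hα
  set β := y.adjugateᵀ *ᵥ cv q with hβ
  have key : ∀ a b c d e f : Fin 3, |Q a b| ≤ ε → 
      α 0 * α 1 * α 2 * (β 0 * β 1 * β 2) = Q a b * Q c d * Q e f →
      |α 0 * α 1 * α 2 * (β 0 * β 1 * β 2)| ≤ ε * T ^ 2 := by
    intro a b c d e f h9 h10
    rw [h10, abs_mul, abs_mul]
    have hε : 0 ≤ ε := (abs_nonneg _).trans h9
    have h11 : |Q a b| * |Q c d| ≤ ε * T := mul_le_mul h9 (h1 c d) (abs_nonneg _) hε
    calc |Q a b| * |Q c d| * |Q e f| ≤ ε * T * T :=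
          mul_le_mul h11 (h1 e f) (abs_nonneg _) (by positivity)
      _ = ε * T ^ 2 := by ring
  fin_cases l
  · exact key 0 1 1 0 2 2 (h2 1 (by decide)) (by rw [hQe, hQe, hQe]; ring)
  · exact key 1 0 0 1 2 2 (h2 0 (by decide)) (by rw [hQe, hQe, hQe]; ring)
  · exact key 2 0 0 2 1 1 (h2 0 (by decide)) (by rw [hQe, hQe, hQe]; ring)

/-- off-diagonal entries of the `l`-th row of the adjugate -/
lemma adj_row_le {P : Mt} {l : Fin 3} {ε T : ℝ} (h1 : ∀ i j, |P i j| ≤ T)
    (h2 : ∀ j, j ≠ l → |P l j| ≤ ε) (j : Fin 3) (hj : j ≠ l) : |P.adjugate l j| ≤ 2 * ε * T := by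
  have hT : 0 ≤ T := (abs_nonneg _).trans (h1 0 0)
  have hε : 0 ≤ ε := (abs_nonneg _).trans (h2 j hj)
  have key : ∀ a b c d : ℝ, |a| ≤ ε → |b| ≤ T → |c| ≤ ε → |d| ≤ T →
      |a * b - c * d| ≤ 2 * ε * T := by
    intro a b c d ha hb hc hd
    have h1 : |a * b| ≤ ε * T := by rw [abs_mul]; exact mul_le_mul ha hb (abs_nonneg _) hε
    have h2 : |c * d| ≤ ε * T := by rw [abs_mul]; exact mul_le_mul hc hd (abs_nonneg _) hε
    have h3 := abs_sub (a * b) (c * d)
    linarith
  have a01 := fun h : l = 0 => h2 1 (by rw [h]; decide)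
  rw [Matrix.adjugate_fin_three]
  fin_cases l <;> fin_cases j <;> simp only [Matrix.of_apply, Matrix.cons_val',
    Matrix.cons_val_zero, Matrix.cons_val_one, Matrix.cons_val, Fin.zero_eta, Fin.mk_one,
    Fin.reduceFinMk] at hj ⊢
  · exact absurd rfl hj
  · have := key (P 0 2) (P 2 1) (P 0 1) (P 2 2) (h2 2 (by decide)) (h1 _ _) (h2 1 (by decide))
      (h1 _ _)
    have e : -(P 0 1 * P 2 2) + P 0 2 * P 2 1 = P 0 2 * P 2 1 - P 0 1 * P 2 2 := by ring
    rw [e]; exact this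
  · have := key (P 0 1) (P 1 2) (P 0 2) (P 1 1) (h2 1 (by decide)) (h1 _ _) (h2 2 (by decide))
      (h1 _ _)
    exact this
  · have := key (P 1 2) (P 2 0) (P 1 0) (P 2 2) (h2 2 (by decide)) (h1 _ _) (h2 0 (by decide))
      (h1 _ _)
    have e : -(P 1 0 * P 2 2) + P 1 2 * P 2 0 = P 1 2 * P 2 0 - P 1 0 * P 2 2 := by ring
    rw [e]; exact this
  · exact absurd rfl hj
  · have := key (P 1 0) (P 0 2) (P 1 2) (P 0 0) (h2 0 (by decide)) (h1 _ _) (h2 2 (by decide))
      (h1 _ _)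
    have e : -(P 0 0 * P 1 2) + P 0 2 * P 1 0 = P 1 0 * P 0 2 - P 1 2 * P 0 0 := by ring
    rw [e]; exact this
  · have := key (P 2 1) (P 1 0) (P 2 0) (P 1 1) (h2 1 (by decide)) (h1 _ _) (h2 0 (by decide))
      (h1 _ _)
    have e : P 1 0 * P 2 1 - P 1 1 * P 2 0 = P 2 1 * P 1 0 - P 2 0 * P 1 1 := by ring
    rw [e]; exact this
  · have := key (P 2 0) (P 0 1) (P 2 1) (P 0 0) (h2 0 (by decide)) (h1 _ _) (h2 1 (by decide))
      (h1 _ _)
    have e : -(P 0 0 * P 2 1) + P 0 1 * P 2 0 = P 2 0 * P 0 1 - P 2 1 * P 0 0 := by ring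
    rw [e]; exact this
  · exact absurd rfl hj

/-- a non-scalar integer matrix acting with bounded entries and nearly diagonal `l`-th row has no
integer eigenvalue -/
theorem noEig_of_small {y : Mt} {δ δ' ε T : ℝ} (hδ' : 0 ≤ δ') (hT : 1 ≤ T)
    (hyd : y.det = 1)
    (hlow : ∀ v : Fin 3 → ℤ, v ≠ 0 → δ ≤ |prodForm y (cv v)|)
    (hlow' : ∀ v : Fin 3 → ℤ, v ≠ 0 → δ' ≤ |prodForm y.adjugateᵀ (cv v)|) {X : Zt} {P : Mt}
    (hP : y * ir X = P * y) {l : Fin 3}
    (h1 : ∀ i j, |P i j| ≤ T) (h2 : ∀ j, j ≠ l → |P l j| ≤ ε)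
    (hN : 8192 * ε * T ^ 5 < δ * δ')
    (hns : ∀ m : ℤ, X ≠ Matrix.diagonal (fun _ => m)) : NoEig X := by
  intro m hm
  have hε : 0 ≤ ε := by
    obtain ⟨j', hj'⟩ : ∃ j', j' ≠ l := by
      fin_cases l
      · exact ⟨1, by decide⟩
      · exact ⟨0, by decide⟩
      · exact ⟨0, by decide⟩
    exact (abs_nonneg _).trans (h2 j' hj')
  set X' : Zt := X - Matrix.diagonal (fun _ => m) with hX'
  set P' : Mt := P - Matrix.diagonal (fun _ => (m : ℝ)) with hP'
  have hmb := eig_bound hyd hP h1 hm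
  have hXP : y * ir X' = P' * y := by
    rw [hX', hP', ir_sub, ir_diag, mul_sub, sub_mul, hP]
    congr 1
    ext i j
    rw [mul_diagonal, diagonal_mul, mul_comm]
  have h1' : ∀ i j, |P' i j| ≤ 4 * T := by
    intro i j
    have h3 := abs_sub (P i j) (Matrix.diagonal (fun _ => (m : ℝ)) i j)
    have h4 : |Matrix.diagonal (fun _ : Fin 3 => (m : ℝ)) i j| ≤ 3 * T := by
      by_cases hij : i = j
      · subst hij; rw [Matrix.diagonal_apply_eq]; exact hmb
      · rw [Matrix.diagonal_apply_ne _ hij, abs_zero]; linarith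
    rw [hP', Matrix.sub_apply]
    linarith [h1 i j]
  have h2' : ∀ j, j ≠ l → |P' l j| ≤ ε := by
    intro j hj
    rw [hP', Matrix.sub_apply, Matrix.diagonal_apply_ne _ (Ne.symm hj), sub_zero]
    exact h2 j hj
  have hX0 : X' ≠ 0 := fun h0 => hns m (sub_eq_zero.mp h0)
  have hT25 : T ^ 2 ≤ T ^ 5 := pow_le_pow_right₀ hT (by norm_num)
  by_cases hadj : X'.adjugate = 0
  · have h3 := rank_one_bound hyd hδ' hlow hlow' hXP hX0 (minors_of_adj hadj) h1' h2'
    have h4 : ε * (4 * T) ^ 2 ≤ 8192 * ε * T ^ 5 := by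
      have : ε * T ^ 2 ≤ ε * T ^ 5 := mul_le_mul_of_nonneg_left hT25 hε
      have h5 : 0 ≤ ε * T ^ 5 := by positivity
      nlinarith
    linarith
  · have haa : X'.adjugate.adjugate = 0 := by
      rw [adjugate_adjugate _ (by simp), hm]
      simp
    have h3 := rank_one_bound (Q := P'.adjugate) (T := 32 * T ^ 2) (ε := 8 * ε * T) hyd hδ' hlow
      hlow' (adj_conj hyd hXP) hadj (minors_of_adj haa) (l := l)
      (fun i j => by
        calc |P'.adjugate i j| ≤ 2 * (4 * T) ^ 2 := adj_entry_le h1' i j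
          _ = 32 * T ^ 2 := by ring)
      (fun j hj => by
        calc |P'.adjugate l j| ≤ 2 * ε * (4 * T) := adj_row_le h1' h2' j hj
          _ = 8 * ε * T := by ring)
    have h4 : 8 * ε * T * (32 * T ^ 2) ^ 2 = 8192 * ε * T ^ 5 := by ring
    linarith

lemma exists_eigenrow (A : Matrix (Fin 3) (Fin 3) ℂ) :
    ∃ θ : ℂ, ∃ v : Fin 3 → ℂ, v ≠ 0 ∧ v ᵥ* A = θ • v := by
  have hd : A.charpoly.degree ≠ 0 := by
    rw [Polynomial.degree_eq_natDegree (charpoly_monic A).ne_zero, charpoly_natDegree_eq_dim]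
    decide
  obtain ⟨θ, hθ⟩ := IsAlgClosed.exists_root A.charpoly hd
  rw [Polynomial.IsRoot, Matrix.eval_charpoly, ← exists_vecMul_eq_zero_iff] at hθ
  obtain ⟨v, hv0, hv⟩ := hθ
  refine ⟨θ, v, hv0, ?_⟩
  rw [vecMul_sub, sub_eq_zero] at hv
  rw [← hv]
  simp [Matrix.scalar_apply, ← smul_one_eq_diagonal, vecMul_smul]

lemma noEig_transpose {Y : Zt} (h : NoEig Y) : NoEig Yᵀ := by
  intro m
  have h1 : Yᵀ - Matrix.diagonal (fun _ => m) = (Y - Matrix.diagonal (fun _ => m))ᵀ := by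
    rw [transpose_sub, diagonal_transpose]
  rw [h1, det_transpose]
  exact h m

end M3D
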