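import Pool.Agent.M3D.Chain

/-!
# The criterion for chains, rows and columns
-/

set_option autoImplicit false

open Matrix Filter Topology Set

namespace M3D

open Margulis3 M3C
open Pool.Agent.Results.MP_c12988_an.CubicForm (star3 star3_mul star3_diag star3_det bounded_star
  closed_star)

lemma eq_of_eig {X X' : Zt} (hX : NoEig X) {v : Fin 3 → ℂ} (hv : v ≠ 0) {μ : ℂ}
    (h : v ᵥ* il ℂ X = μ • v) (h' : v ᵥ* il ℂ X' = μ • v) : X = X' := by
  have h5 : ∀ j, (fun i => (X - X') i j) = 0 := by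
    intro j
    refine row_indep hX hv h _ ?_
    have h6 : v ⬝ᵥ (fun i => (((X - X') i j : ℤ) : ℂ))
        = (v ᵥ* il ℂ X) j - (v ᵥ* il ℂ X') j := by
      simp only [vecMul, dotProduct, il_apply, Matrix.sub_apply, Int.cast_sub]
      rw [← Finset.sum_sub_distrib]
      exact Finset.sum_congr rfl fun i _ => by ring
    rw [h6, h, h', sub_self]
  have h7 : X - X' = 0 := by
    ext i j
    exact congrFun (h5 j) i
  exact sub_eq_zero.mp h7

lemma root_conj {X κ : Zt} (hκ : κ.det = 1) {v : Fin 3 → ℂ} (hv : v ≠ 0) {μ : ℂ}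
    (h : v ᵥ* il ℂ X = μ • v) : (il ℂ (κ.adjugate * X * κ)).charpoly.IsRoot μ := by
  rw [Polynomial.IsRoot, Matrix.eval_charpoly, ← exists_vecMul_eq_zero_iff]
  refine ⟨v ᵥ* il ℂ κ, ?_, ?_⟩
  · intro h0
    apply hv
    have h3 : (v ᵥ* il ℂ κ) ᵥ* il ℂ κ.adjugate = v := by
      rw [vecMul_vecMul, ← il_mul, mul_adj hκ]
      have : il ℂ (1 : Zt) = 1 := Matrix.map_one _ (map_zero _) (map_one _)
      rw [this, vecMul_one]
    rw [← h3, h0, zero_vecMul]
  · have h4 : (v ᵥ* il ℂ κ) ᵥ* il ℂ (κ.adjugate * X * κ) = μ • (v ᵥ* il ℂ κ) := by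
      rw [vecMul_vecMul, ← il_mul, ← mul_assoc, ← mul_assoc, mul_adj hκ, one_mul,
        il_mul, ← vecMul_vecMul, h, smul_vecMul]
    rw [vecMul_sub, h4, sub_eq_zero]
    simp [Matrix.scalar_apply, ← smul_one_eq_diagonal, vecMul_smul]

lemma finite_bounded (R : ℝ) : {γ : Zt | ∀ i j, |(ir γ) i j| ≤ R}.Finite := by
  obtain ⟨N, hN⟩ := exists_nat_ge R
  have hfin : (Set.pi Set.univ (fun _ : Fin 3 =>
      Set.pi Set.univ (fun _ : Fin 3 => Set.Icc (-(N : ℤ)) N))).Finite := by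
    exact Set.Finite.pi (fun _ => Set.Finite.pi (fun _ => Set.finite_Icc _ _))
  refine hfin.subset ?_
  intro γ hγ i _ j _
  have h1 : |(γ i j : ℝ)| ≤ (N : ℝ) := (hγ i j).trans hN
  have h3 : |γ i j| ≤ (N : ℤ) := by exact_mod_cast h1
  exact abs_le.mp h3

lemma star_inv {a : Fin 3 → ℝ} (h : (Matrix.diagonal a).det = 1) :
    star3 (Matrix.diagonal a) = Matrix.diagonal (fun i => (a i)⁻¹) := by
  rw [star3_diag]
  rw [det_diagonal3] at h
  congr 1
  funext i
  fin_cases i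
  · change a 1 * a 2 = (a 0)⁻¹
    exact eq_inv_of_mul_eq_one_left (by linarith)
  · change a 0 * a 2 = (a 1)⁻¹
    exact eq_inv_of_mul_eq_one_left (by linarith)
  · change a 0 * a 1 = (a 2)⁻¹
    exact eq_inv_of_mul_eq_one_left (by linarith)

theorem criterion_row {g : Mt} (hg : g.det = 1) (hb : BoundedOrbit g) (l : Fin 3) :
    ∃ c₀ : ℝ, 0 < c₀ ∧ ∀ B T ε : ℝ, 1 ≤ B → 1 ≤ T → B ^ 12 * ε * T ^ 5 ≤ c₀ →
      (∀ L : ℝ, ∃ (N : ℕ) (a : ℕ → Fin 3 → ℝ), Chain B L N a ∧ ∀ n ≤ N, ∃ (X : Zt) (P : Mt),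
        (∀ m : ℤ, X ≠ Matrix.diagonal (fun _ => m)) ∧
        Matrix.diagonal (a n) * g * ir X = P * (Matrix.diagonal (a n) * g) ∧
        (∀ i j, |P i j| ≤ T) ∧ ∀ j, j ≠ l → |P l j| ≤ ε) → IsClosed (orbitSet g) := by
  obtain ⟨K, hK, hKm⟩ := id hb
  obtain ⟨C, hC1, hC⟩ := exists_bound hK
  obtain ⟨δ0, hδ0, hlow0⟩ := lower_bound g hb hg
  obtain ⟨δ1, hδ1, hlow1⟩ := lower_bound (star3 g) (bounded_star g hb) (star3_det g hg)
  set δ : ℝ := min δ0 1 with hδdef
  set δ' : ℝ := min δ1 1 with hδ'def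
  have hδ : 0 < δ := lt_min hδ0 one_pos
  have hδ' : 0 < δ' := lt_min hδ1 one_pos
  have hδle : δ ≤ 1 := min_le_right _ _
  have hδ'le : δ' ≤ 1 := min_le_right _ _
  have hlow : ∀ v : Fin 3 → ℤ, v ≠ 0 → δ ≤ |prodForm g (cv v)| := fun v hv =>
    (min_le_left _ _).trans (hlow0 v hv)
  have hlow' : ∀ v : Fin 3 → ℤ, v ≠ 0 → δ' ≤ |prodForm (star3 g) (cv v)| := fun v hv =>
    (min_le_left _ _).trans (hlow1 v hv)
  have hC3 : 1 ≤ C ^ 3 := one_le_pow₀ hC1
  refine ⟨δ * δ' / (10 ^ 4 * C ^ 3), by positivity, fun B T ε hB hT hBT H => ?_⟩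
  have hδδ : 0 < δ * δ' := mul_pos hδ hδ'
  have hN : 10 ^ 4 * (C ^ 3 * (B ^ 2 * ε) * (B ^ 2 * T) ^ 5) ≤ δ * δ' := by
    rw [le_div_iff₀ (by positivity)] at hBT
    calc 10 ^ 4 * (C ^ 3 * (B ^ 2 * ε) * (B ^ 2 * T) ^ 5)
        = B ^ 12 * ε * T ^ 5 * (10 ^ 4 * C ^ 3) := by ring
      _ ≤ δ * δ' := hBT
  have hT0 : 0 ≤ T := by linarith
  have hB2 : 1 ≤ B ^ 2 := one_le_pow₀ hB
  have hTB : T ≤ B ^ 2 * T := by nlinarith
  have hTB1 : 1 ≤ B ^ 2 * T := hT.trans hTB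
  -- finite set of eigenvalues
  have hfinE : (⋃ γ ∈ {γ : Zt | ∀ i j, |(ir γ) i j| ≤ 18 * C ^ 3 * T},
      {z : ℂ | (il ℂ γ).charpoly.IsRoot z}).Finite :=
    (finite_bounded _).biUnion fun γ _ =>
      Polynomial.finite_setOfPred_isRoot (charpoly_monic _).ne_zero
  set E := hfinE.toFinset with hE
  refine closed_of_far hg hb hT0 fun D => ?_
  set β : ℝ := Real.log B with hβdef
  have hβ : 0 ≤ β := Real.log_nonneg hB
  obtain ⟨N, a, ⟨hadet, hastep, i, hfar⟩, hXP⟩ := H (Real.exp (E.card * ((D : ℝ) + β) + 1))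
  have hXP' : ∀ n, ∃ (X : Zt) (P : Mt), n ≤ N → (∀ m : ℤ, X ≠ Matrix.diagonal (fun _ => m)) ∧
        Matrix.diagonal (a n) * g * ir X = P * (Matrix.diagonal (a n) * g) ∧
        (∀ i j, |P i j| ≤ T) ∧ ∀ j, j ≠ l → |P l j| ≤ ε := by
    intro n
    by_cases hn : n ≤ N
    · obtain ⟨X, P, h⟩ := hXP n hn
      exact ⟨X, P, fun _ => h⟩
    · exact ⟨0, 0, fun h => absurd h hn⟩
  choose X P hXP using hXP'
  have hε : 0 ≤ ε := by
    obtain ⟨j', hj'⟩ : ∃ j', j' ≠ l := by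
      fin_cases l
      · exact ⟨1, by decide⟩
      · exact ⟨0, by decide⟩
      · exact ⟨0, by decide⟩
    exact (abs_nonneg _).trans ((hXP 0 (Nat.zero_le _)).2.2.2 j' hj')
  have hεB : ε ≤ B ^ 2 * ε := by nlinarith
  have hN1 : 8192 * ε * T ^ 5 < δ * δ' := by
    have hT5 : T ^ 5 ≤ (B ^ 2 * T) ^ 5 := pow_le_pow_left₀ (by linarith) hTB 5
    have h1 : ε * T ^ 5 ≤ (B ^ 2 * ε) * (B ^ 2 * T) ^ 5 :=
      mul_le_mul hεB hT5 (by positivity) (by positivity)
    have h2 : (B ^ 2 * ε) * (B ^ 2 * T) ^ 5 ≤ C ^ 3 * (B ^ 2 * ε) * (B ^ 2 * T) ^ 5 := by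
      have h3 : 0 ≤ (B ^ 2 * ε) * (B ^ 2 * T) ^ 5 := by positivity
      nlinarith
    nlinarith
  have hane : ∀ n i, a n i ≠ 0 := fun n i => diag_ne (hadet n) i
  have hapos : ∀ n i, 0 < |a n i| := fun n i => abs_pos.mpr (hane n i)
  choose κ hκ hκK using fun n => hKm (a n) (hadet n)
  have hκC : ∀ n i j, |(Matrix.diagonal (a n) * g * ir (κ n)) i j| ≤ C := fun n i j =>
    hC _ (hκK n) i j
  have hyd : ∀ n, (Matrix.diagonal (a n) * g).det = 1 := fun n => by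
    rw [det_mul, hadet n, hg, one_mul]
  have hlown : ∀ n, ∀ v : Fin 3 → ℤ, v ≠ 0 →
      δ ≤ |prodForm (Matrix.diagonal (a n) * g) (cv v)| := by
    intro n v hv
    rw [prodForm_diag (hadet n)]
    exact hlow v hv
  have hlown' : ∀ n, ∀ v : Fin 3 → ℤ, v ≠ 0 →
      δ' ≤ |prodForm (Matrix.diagonal (a n) * g).adjugateᵀ (cv v)| := by
    intro n v hv
    have e1 : (Matrix.diagonal (a n) * g).adjugateᵀ
        = Matrix.diagonal (fun i => (a n i)⁻¹) * star3 g := by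
      rw [← star_inv (hadet n), ← star3_mul]; rfl
    rw [e1, prodForm_diag (diag_inv (hadet n)).1]
    exact hlow' v hv
  have hno : ∀ n ≤ N, NoEig (X n) := fun n hn =>
    noEig_of_small hδ'.le hT (hyd n) (hlown n) (hlown' n) (hXP n hn).2.1
      (hXP n hn).2.2.1 (hXP n hn).2.2.2 hN1 (hXP n hn).1
  have hcomm : ∀ n < N, X n * X (n + 1) = X (n + 1) * X n := by
    intro n hn
    set b : Fin 3 → ℝ := fun i => a (n + 1) i * (a n i)⁻¹ with hb'
    have hbB : ∀ i, |b i| ≤ B := by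
      intro i
      rw [hb', abs_mul, abs_inv, ← div_eq_mul_inv, div_le_iff₀ (hapos n i)]
      exact (hastep n hn i).1
    have hbB' : ∀ i, |(b i)⁻¹| ≤ B := by
      intro i
      rw [hb', abs_inv, abs_mul, abs_inv, ← div_eq_mul_inv, inv_div, div_le_iff₀ (hapos (n + 1) i)]
      exact (hastep n hn i).2
    have hbne : ∀ i, b i ≠ 0 := fun i => mul_ne_zero (hane _ _) (inv_ne_zero (hane _ _))
    set P' : Mt := Matrix.diagonal (fun i => (b i)⁻¹) * P (n + 1) * Matrix.diagonal b with hP'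
    have hP'e : ∀ i j, P' i j = (b i)⁻¹ * P (n + 1) i j * b j := by
      intro i j
      rw [hP', mul_diagonal, diagonal_mul]
    have hyn : Matrix.diagonal b * (Matrix.diagonal (a n) * g) = Matrix.diagonal (a (n + 1)) * g := by
      rw [← mul_assoc, diagonal_mul_diagonal]
      congr 2
      funext i
      rw [hb']
      have := hane n i
      field_simp
    have i2 : Matrix.diagonal (fun i => (b i)⁻¹) * Matrix.diagonal b = (1 : Mt) := by
      rw [diagonal_mul_diagonal, ← diagonal_one]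
      congr 1; funext i; exact inv_mul_cancel₀ (hbne i)
    set y : Mt := Matrix.diagonal (a n) * g with hy
    have hPP : y * ir (X (n + 1)) = P' * y := by
      have h3 := (hXP (n + 1) hn).2.1
      rw [← hyn] at h3
      calc y * ir (X (n + 1))
          = (Matrix.diagonal (fun i => (b i)⁻¹) * Matrix.diagonal b) * y * ir (X (n + 1)) := by
            rw [i2, one_mul]
        _ = Matrix.diagonal (fun i => (b i)⁻¹) * (Matrix.diagonal b * y * ir (X (n + 1))) := by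
            simp only [mul_assoc]
        _ = P' * y := by rw [h3, hP']; simp only [mul_assoc]
    have hPb : ∀ i j (t : ℝ), |P (n + 1) i j| ≤ t → 0 ≤ t → |P' i j| ≤ B ^ 2 * t := by
      intro i j t ht ht0
      rw [hP'e, abs_mul, abs_mul]
      have h4 : |(b i)⁻¹| * |P (n + 1) i j| ≤ B * t :=
        mul_le_mul (hbB' i) ht (abs_nonneg _) (by linarith)
      calc |(b i)⁻¹| * |P (n + 1) i j| * |b j| ≤ B * t * B :=
            mul_le_mul h4 (hbB j) (abs_nonneg _) (by positivity)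
        _ = B ^ 2 * t := by ring
    refine commute_of_small (ε := B ^ 2 * ε) (T := B ^ 2 * T) (hκ n) (hκC n) (hlown n)
      (hXP n hn.le).2.1 hPP (l := l) (fun i j => ((hXP n hn.le).2.2.1 i j).trans hTB)
      (fun i j => hPb i j T ((hXP (n + 1) hn).2.2.1 i j) hT0)
      (fun j hj => ((hXP n hn.le).2.2.2 j hj).trans hεB)
      (fun j hj => hPb l j ε ((hXP (n + 1) hn).2.2.2 j hj) hε) ?_
    set ε' := B ^ 2 * ε with hε'
    set T' := B ^ 2 * T with hT'
    have hε'0 : 0 ≤ ε' := by positivity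
    have h6 : 27 * C ^ 3 * (6 * ε' * T') * (6 * T' ^ 2) ^ 2 = 5832 * (C ^ 3 * ε' * T' ^ 5) := by
      ring
    rw [h6]
    have h7 : δ * δ' ≤ δ := by nlinarith
    have h8 : 0 ≤ C ^ 3 * ε' * T' ^ 5 := by positivity
    nlinarith
  obtain ⟨θ, v, hv0, hv⟩ := exists_eigenrow (il ℂ (X 0))
  have hall : ∀ n, ∃ μ : ℂ, n ≤ N → v ᵥ* il ℂ (X n) = μ • v := by
    intro n
    induction n with
    | zero => exact ⟨θ, fun _ => hv⟩
    | succ n ih =>
      obtain ⟨μ, hμ⟩ := ih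
      by_cases hn : n + 1 ≤ N
      · have hμ' := hμ (by omega)
        have h1 : (v ᵥ* il ℂ (X (n + 1))) ᵥ* il ℂ (X n) = μ • (v ᵥ* il ℂ (X (n + 1))) := by
          rw [vecMul_vecMul, ← il_mul, ← hcomm n (by omega), il_mul, ← vecMul_vecMul, hμ',
            smul_vecMul]
        obtain ⟨μ', hμ''⟩ := eig_simple (hno n (by omega)) hv0 hμ' h1
        exact ⟨μ', fun _ => hμ''⟩
      · exact ⟨0, fun h => absurd h hn⟩
  choose μ hμ using hall
  have hμE : ∀ n ≤ N, μ n ∈ E := by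
    intro n hn
    rw [hE, Set.Finite.mem_toFinset, Set.mem_iUnion₂]
    exact ⟨(κ n).adjugate * X n * κ n, fun i j => conj_bound (hyd n) (hκ n) hT0 (hκC n)
      (hXP n hn).2.1 (hXP n hn).2.2.1 i j, root_conj (hκ n) hv0 (hμ n hn)⟩
  classical
  by_contra hcon
  push Not at hcon
  have hsame : ∀ n ≤ N, ∀ m ≤ N, μ n = μ m →
      abs (Real.log |a m i| - Real.log |a n i|) ≤ (D : ℝ) := by
    intro n hn m hm hnm
    have h1 : X n = X m := eq_of_eig (hno n hn) hv0 (hμ n hn) (by rw [hnm]; exact hμ m hm)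
    have h2 := hcon (a n) (a m) (hadet n) (hadet m) (X n) (P n) (P m) (hno n hn)
      (hXP n hn).2.1 (by rw [h1]; exact (hXP m hm).2.1) (hXP n hn).2.2.1 (hXP m hm).2.2.1 i
    exact h2.le
  have hstep : ∀ n < N, abs (Real.log |a (n + 1) i| - Real.log |a n i|) ≤ β := by
    intro n hn
    obtain ⟨s1, s2⟩ := hastep n hn i
    have hBp : 0 < B := by linarith
    have l1 := Real.log_le_log (hapos (n + 1) i) s1
    have l2 := Real.log_le_log (hapos n i) s2
    rw [Real.log_mul hBp.ne' (hapos _ _).ne'] at l1 l2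
    rw [abs_le]
    constructor <;> linarith
  have hfin := colour_chain (fun n => Real.log |a n i|) μ (D := D) (β := β) (N := N)
    (Nat.cast_nonneg D) hβ hstep hsame E 0 (Nat.zero_le _) (fun m _ hm => hμE m hm)
  have hLpos : 0 < Real.exp (E.card * ((D : ℝ) + β) + 1) := Real.exp_pos _
  rcases hfar with hfar | hfar
  · have l1 := Real.log_le_log (mul_pos hLpos (hapos 0 i)) hfar
    rw [Real.log_mul hLpos.ne' (hapos _ _).ne', Real.log_exp] at l1
    have := (abs_le.mp hfin).2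
    linarith
  · have l1 := Real.log_le_log (mul_pos hLpos (hapos N i)) hfar
    rw [Real.log_mul hLpos.ne' (hapos _ _).ne', Real.log_exp] at l1
    have := (abs_le.mp hfin).1
    linarith

end M3D
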