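import Pool.Agent.M3D.Pigeon

/-!
# Local complexity, approximate multiplications, and closed orbits
-/

set_option autoImplicit false

open Matrix Filter Topology Set

namespace M3D

open Margulis3 M3C

/-- at most `m` lines are needed in the window of radius `log (1/r)` at `a` -/
def LCov (col : Bool) (l : Fin 3) (g : Mt) (K : Set Mt) (a : Fin 3 → ℝ) (r m : ℝ) : Prop :=
  ∃ V : Finset (Fin 3 → ℝ), (V.card : ℝ) ≤ m ∧
    ∀ s : Fin 3 → ℝ, (Matrix.diagonal s).det = 1 → (∀ i, r ≤ |s i| ∧ |s i| ≤ 1 / r) →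
      ∃ γ : Zt, γ.det = 1 ∧ Matrix.diagonal s * (Matrix.diagonal a * g) * ir γ ∈ K ∧
        ∃ v ∈ V, ∃ t : ℝ, ∀ j,
          |cph col l (Matrix.diagonal s * (Matrix.diagonal a * g) * ir γ) j - t * v j| ≤ r

theorem closed_of_cov {g : Mt} (hg : g.det = 1) {K : Set Mt} (hK : IsCompact K)
    (hmeet : ∀ d : Fin 3 → ℝ, (Matrix.diagonal d).det = 1 →
      ∃ γ : Matrix (Fin 3) (Fin 3) ℤ, γ.det = 1 ∧
        Matrix.diagonal d * g * γ.map (fun z : ℤ => (z : ℝ)) ∈ K)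
    (col : Bool) (l : Fin 3) {B : ℝ} (hB : 1 ≤ B) :
    ∃ c r₀ : ℝ, 0 < c ∧ 0 < r₀ ∧ ∀ r, 0 < r → r < r₀ →
      (∀ L : ℝ, ∃ (N : ℕ) (a : ℕ → Fin 3 → ℝ), Chain B L N a ∧
        ∀ n ≤ N, LCov col l g K (a n) r (c * Real.log r ^ 2)) → IsClosed (orbitSet g) := by
  have hb : BoundedOrbit g := ⟨K, hK, hmeet⟩
  obtain ⟨C, hC1, hC⟩ := exists_bound hK
  obtain ⟨c₀, hc₀, hcrit⟩ := criterion hg hb l col
  have hC3 : 1 ≤ C ^ 3 := one_le_pow₀ hC1
  set lam : ℝ := 6 * C ^ 3 + 1 with hlam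
  have hlam1 : 1 < lam := by rw [hlam]; linarith
  have hloglam : 0 < Real.log lam := Real.log_pos hlam1
  set A₀ : ℝ := B ^ 12 * (12 * C ^ 2) * (6 * C ^ 3) ^ 5 with hA₀
  have hA₀p : 0 < A₀ := by positivity
  set r₀ : ℝ := min 1 ((c₀ / A₀) ^ 2) with hr₀
  refine ⟨1 / (48 * Real.log lam) ^ 2, r₀, by positivity,
    lt_min one_pos (by positivity), fun r hr hrr₀ H => ?_⟩
  have hr1 : r < 1 := hrr₀.trans_le (min_le_left _ _)
  have hr2 : r ≤ (c₀ / A₀) ^ 2 := (hrr₀.trans_le (min_le_right _ _)).le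
  have hlogr : 0 < Real.log (1 / r) := Real.log_pos (by rw [lt_div_iff₀ hr]; linarith)
  set x : ℝ := Real.log (1 / r) / (48 * Real.log lam) with hx
  have hx0 : 0 ≤ x := by positivity
  set m : ℕ := ⌊x⌋₊ with hm
  have hmx : (m : ℝ) ≤ x := Nat.floor_le hx0
  have hmx' : x < m + 1 := Nat.lt_floor_add_one x
  have hpow : lam ^ (48 * m) ≤ 1 / r := by
    have h1 : Real.log (lam ^ (48 * m)) ≤ Real.log (1 / r) := by
      rw [Real.log_pow]
      push_cast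
      rw [hx, le_div_iff₀ (by positivity)] at hmx
      linarith
    exact (Real.log_le_log_iff (by positivity) (by positivity)).mp h1
  have hlam0 : 0 < lam := by linarith
  have hpow2 : lam ^ (2 * m) ≤ 1 / r :=
    (pow_le_pow_right₀ hlam1.le (by omega)).trans hpow
  set Λ : ℝ := lam ^ m with hΛ
  have hΛ1 : 1 ≤ Λ := one_le_pow₀ hlam1.le
  have hΛ48 : Λ ^ 48 ≤ 1 / r := by
    rw [hΛ, ← pow_mul, mul_comm]; exact hpow
  have hS : lam ^ (2 * m) = Λ ^ 2 := by rw [hΛ, ← pow_mul, mul_comm]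
  have hS2 : (lam ^ (2 * m)) ^ 2 = Λ ^ 4 := by rw [hS]; ring
  refine hcrit B (6 * C ^ 3 * Λ ^ 4) (12 * C ^ 2 * r * Λ ^ 4) hB ?_ ?_ ?_
  · have h1 : 1 ≤ Λ ^ 4 := one_le_pow₀ hΛ1
    nlinarith
  · have e1 : B ^ 12 * (12 * C ^ 2 * r * Λ ^ 4) * (6 * C ^ 3 * Λ ^ 4) ^ 5 = A₀ * (r * Λ ^ 24) := by
      rw [hA₀]; ring
    rw [e1]
    have h2 : (r * Λ ^ 24) ^ 2 ≤ (c₀ / A₀) ^ 2 := by
      calc (r * Λ ^ 24) ^ 2 = r ^ 2 * Λ ^ 48 := by ring
        _ ≤ r ^ 2 * (1 / r) := mul_le_mul_of_nonneg_left hΛ48 (by positivity)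
        _ = r := by field_simp
        _ ≤ (c₀ / A₀) ^ 2 := hr2
    have h3 : r * Λ ^ 24 ≤ c₀ / A₀ :=
      (pow_le_pow_iff_left₀ (by positivity) (by positivity) (by norm_num)).mp h2
    calc A₀ * (r * Λ ^ 24) ≤ A₀ * (c₀ / A₀) := mul_le_mul_of_nonneg_left h3 hA₀p.le
      _ = c₀ := by field_simp
  · intro L
    obtain ⟨N, a, hch, hcov⟩ := H L
    refine ⟨N, a, hch, fun n hn => ?_⟩
    obtain ⟨V, hV, hcov'⟩ := hcov n hn
    have hVc : V.card < (m + 1) ^ 2 := by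
      have h1 : Real.log r ^ 2 = Real.log (1 / r) ^ 2 := by
        rw [one_div, Real.log_inv]; ring
      have h2 : (V.card : ℝ) < ((m : ℝ) + 1) ^ 2 := by
        calc (V.card : ℝ) ≤ 1 / (48 * Real.log lam) ^ 2 * Real.log r ^ 2 := hV
          _ = x ^ 2 := by rw [h1, hx]; field_simp
          _ < ((m : ℝ) + 1) ^ 2 := pow_lt_pow_left₀ hmx' hx0 (by norm_num)
      exact_mod_cast h2
    have := cov_aut (col := col) (l := l) hg (hch.1 n) hC1 hC (lam := lam) (by rw [hlam]; linarith)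
      hr hpow2 hVc hcov'
    rwa [hS2] at this

/-- a closed bounded orbit: finitely many lines -/
theorem finite_lines {g : Mt} (hg : g.det = 1) {K : Set Mt} (hK : IsCompact K)
    (hb : BoundedOrbit g) (hcl : IsClosed (orbitSet g)) (col : Bool) (l : Fin 3) :
    ∃ V : Finset (Fin 3 → ℝ), ∀ M ∈ K, M ∈ orbitSet g → ∃ v ∈ V, ∃ t : ℝ, ∀ j,
      cph col l M j = t * v j := by
  classical
  have hS := closure_bd hg hb
  rw [hcl.closure_eq] at hS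
  have hloc := loc_of_closed hS
  have hcomp : IsCompact (K ∩ orbitSet g) := hK.inter_right hcl
  have hU : ∀ M ∈ K ∩ orbitSet g, ∃ U ∈ 𝓝 M, ∀ N ∈ orbitSet g, N ∈ U →
      ∃ d : Fin 3 → ℝ, (Matrix.diagonal d).det = 1 ∧ N = Matrix.diagonal d * M :=
    fun M hM => hloc M hM.2
  choose! U hUn hUl using hU
  obtain ⟨t, htK⟩ := hcomp.elim_nhds_subcover' (fun M _ => U M) (fun M hM => hUn M hM)
  refine ⟨t.image (fun M : {M // M ∈ K ∩ orbitSet g} => cph col l M.1), fun M hMK hMo => ?_⟩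
  have hM : M ∈ K ∩ orbitSet g := ⟨hMK, hMo⟩
  have hmem := htK hM
  rw [mem_iUnion₂] at hmem
  obtain ⟨M0, hM0, hMU⟩ := hmem
  obtain ⟨d, hd, hMd⟩ := hUl M0 M0.2 M hMo hMU
  refine ⟨cph col l M0.1, Finset.mem_image.mpr ⟨M0, hM0, rfl⟩, ?_⟩
  cases col with
  | false =>
    refine ⟨d l, fun j => ?_⟩
    change M l j = d l * (M0 : Mt) l j
    rw [hMd, diagonal_mul]
  | true =>
    refine ⟨(d l)⁻¹, fun j => ?_⟩
    change M⁻¹ j l = (d l)⁻¹ * (M0 : Mt)⁻¹ j l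
    obtain ⟨i1, i2, i3⟩ := diag_inv hd
    have h1 : M⁻¹ = (M0 : Mt)⁻¹ * Matrix.diagonal (fun i => (d i)⁻¹) := by
      rw [hMd, Matrix.mul_inv_rev]
      congr 1
      exact inv_eq_right_inv i3
    rw [h1, mul_diagonal, mul_comm]

end M3D
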