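import Pool.Agent.M3D.Cover

/-!
# Pigeonhole in windows of the diagonal group
-/

set_option autoImplicit false

open Matrix Filter Topology Set

namespace M3D

open Margulis3 M3C

/-- the `l`-th row of `M`, or the `l`-th column of its inverse -/
noncomputable def cph (col : Bool) (l : Fin 3) (M : Mt) : Fin 3 → ℝ :=
  if col then fun j => M⁻¹ j l else M l

lemma err_comb {u u' v : Fin 3 → ℝ} {t t' r : ℝ} (hr : 0 ≤ r) (h : ∀ j, |u j - t * v j| ≤ r)
    (h' : ∀ j, |u' j - t' * v j| ≤ r) (htt : |t'| ≤ |t|) :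
    ∃ τ : ℝ, ∀ j, |u' j - τ * u j| ≤ 2 * r := by
  by_cases ht : t = 0
  · have ht' : t' = 0 := by
      rw [ht, abs_zero] at htt
      exact abs_eq_zero.mp (le_antisymm htt (abs_nonneg _))
    refine ⟨0, fun j => ?_⟩
    have := h' j
    rw [ht', zero_mul] at this
    rw [zero_mul]
    linarith
  · refine ⟨t' / t, fun j => ?_⟩
    have e : u' j - t' / t * u j = (u' j - t' * v j) - t' / t * (u j - t * v j) := by
      field_simp
      ring
    have hτ : |t' / t| ≤ 1 := by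
      rw [abs_div, div_le_one (abs_pos.mpr ht)]; exact htt
    rw [e]
    have h1 := abs_sub (u' j - t' * v j) (t' / t * (u j - t * v j))
    rw [abs_mul] at h1
    have h2 : |t' / t| * |u j - t * v j| ≤ 1 * r :=
      mul_le_mul hτ (h j) (abs_nonneg _) (by norm_num)
    linarith [h' j]

/-- two nearby coordinate directions at two points of a window give an automorph -/
theorem pair_aut {col : Bool} {l : Fin 3} {g : Mt} (hg : g.det = 1) {a : Fin 3 → ℝ}
    (ha : (Matrix.diagonal a).det = 1) {s s' : Fin 3 → ℝ} (hs : (Matrix.diagonal s).det = 1)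
    (hs' : (Matrix.diagonal s').det = 1) {γ γ' : Zt} (hγ : γ.det = 1) (hγ' : γ'.det = 1)
    {C : ℝ} (hC1 : 1 ≤ C)
    (hC : ∀ i j, |(Matrix.diagonal s * (Matrix.diagonal a * g) * ir γ) i j| ≤ C)
    (hC' : ∀ i j, |(Matrix.diagonal s' * (Matrix.diagonal a * g) * ir γ') i j| ≤ C)
    {v : Fin 3 → ℝ} {t t' r : ℝ} (hr : 0 ≤ r)
    (h : ∀ j, |cph col l (Matrix.diagonal s * (Matrix.diagonal a * g) * ir γ) j - t * v j| ≤ r)
    (h' : ∀ j, |cph col l (Matrix.diagonal s' * (Matrix.diagonal a * g) * ir γ') j - t' * v j| ≤ r)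
    (htt : |t'| ≤ |t|) (hn1 : ∃ i, 6 * C ^ 3 * |s i| < |s' i|)
    (hn2 : ∃ i, 6 * C ^ 3 * |s' i| < |s i|) {S : ℝ} (hS : ∀ i, |s i| ≤ S) (hS' : ∀ i, |s' i| ≤ S)
    (hSi : ∀ i, |(s i)⁻¹| ≤ S) (hSi' : ∀ i, |(s' i)⁻¹| ≤ S) :
    Aut col g a l (6 * C ^ 3 * S ^ 2) (12 * C ^ 2 * r * S ^ 2) := by
  set y : Mt := Matrix.diagonal a * g with hy
  have hyd : y.det = 1 := by rw [hy, det_mul, ha, hg, one_mul]
  have hS0 : 0 ≤ S := (abs_nonneg _).trans (hS 0)
  have hC0 : 0 ≤ C := by linarith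
  set M : Mt := Matrix.diagonal s * y * ir γ with hM
  set M' : Mt := Matrix.diagonal s' * y * ir γ' with hM'
  have hMd : M.det = 1 := by rw [hM, det_mul, det_mul, hs, hyd, det_ir hγ]; norm_num
  have hMd' : M'.det = 1 := by rw [hM', det_mul, det_mul, hs', hyd, det_ir hγ']; norm_num
  have hMinv : M⁻¹ = M.adjugate := by rw [Matrix.inv_def, hMd]; simp
  have hMinv' : M'⁻¹ = M'.adjugate := by rw [Matrix.inv_def, hMd']; simp
  obtain ⟨τ, hτ⟩ := err_comb hr h h' htt
  have hent : ∀ (p q : Fin 3 → ℝ) (E : Mt), (∀ i, |p i| ≤ S) → (∀ i, |q i| ≤ S) →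
      ∀ (i j : Fin 3) (x : ℝ), 0 ≤ x → |E i j| ≤ x →
        |(Matrix.diagonal p * E * Matrix.diagonal q) i j| ≤ x * S ^ 2 := by
    intro p q E hp hq i j x hx hE
    rw [mul_diagonal, diagonal_mul, abs_mul, abs_mul]
    have h1 : |p i| * |E i j| ≤ S * x := mul_le_mul (hp i) hE (abs_nonneg _) hS0
    calc |p i| * |E i j| * |q j| ≤ S * x * S :=
          mul_le_mul h1 (hq j) (abs_nonneg _) (mul_nonneg hS0 hx)
      _ = x * S ^ 2 := by ring
  cases col with
  | false =>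
    obtain ⟨h1, h2, h3⟩ := two_points hyd hs hs' hγ hγ' hC hC' hn1
    refine ⟨_, _, h1, h2, fun i j => ?_, fun j hj => ?_⟩
    · exact hent _ _ _ hSi' hS i j _ (by positivity) (h3 i j)
    · change |(Matrix.diagonal (fun i => (s' i)⁻¹) * (M' * M.adjugate) * Matrix.diagonal s) l j| ≤ _
      refine hent _ _ _ hSi' hS l j _ (by positivity) ?_
      have e1 : (M' * M.adjugate) l j = ∑ k, (M' l k - τ * M l k) * M.adjugate k j := by
        have e2 : ∑ k, M l k * M.adjugate k j = 0 := by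
          have := congrFun (congrFun (mul_adjugate M) l) j
          rw [hMd, one_smul, Matrix.one_apply_ne (Ne.symm hj), Matrix.mul_apply] at this
          exact this
        rw [Matrix.mul_apply]
        have e3 : ∑ k, (M' l k - τ * M l k) * M.adjugate k j
            = ∑ k, M' l k * M.adjugate k j - τ * ∑ k, M l k * M.adjugate k j := by
          rw [Finset.mul_sum, ← Finset.sum_sub_distrib]
          exact Finset.sum_congr rfl fun k _ => by ring
        rw [e3, e2, mul_zero, sub_zero]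
      rw [e1]
      refine (Finset.abs_sum_le_sum_abs _ _).trans ?_
      have e4 : ∀ k ∈ Finset.univ, |(M' l k - τ * M l k) * M.adjugate k j|
          ≤ 2 * r * (2 * C ^ 2) := by
        intro k _
        rw [abs_mul]
        exact mul_le_mul (hτ k) (adj_entry_le hC k j) (abs_nonneg _) (by positivity)
      refine (Finset.sum_le_sum e4).trans ?_
      simp
      linarith
  | true =>
    obtain ⟨h1, h2, h3⟩ := two_points hyd hs' hs hγ' hγ hC' hC hn2
    refine ⟨_, _, h1, h2, fun i j => ?_, fun j hj => ?_⟩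
    · exact hent _ _ _ hSi hS' i j _ (by positivity) (h3 i j)
    · change |(Matrix.diagonal (fun i => (s i)⁻¹) * (M * M'.adjugate) * Matrix.diagonal s') j l| ≤ _
      refine hent _ _ _ hSi hS' j l _ (by positivity) ?_
      have hτ' : ∀ k, |M'.adjugate k l - τ * M.adjugate k l| ≤ 2 * r := by
        intro k
        have := hτ k
        rw [← hMinv, ← hMinv']
        exact this
      have e1 : (M * M'.adjugate) j l = ∑ k, M j k * (M'.adjugate k l - τ * M.adjugate k l) := by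
        have e2 : ∑ k, M j k * M.adjugate k l = 0 := by
          have := congrFun (congrFun (mul_adjugate M) j) l
          rw [hMd, one_smul, Matrix.one_apply_ne hj, Matrix.mul_apply] at this
          exact this
        rw [Matrix.mul_apply]
        have e3 : ∑ k, M j k * (M'.adjugate k l - τ * M.adjugate k l)
            = ∑ k, M j k * M'.adjugate k l - τ * ∑ k, M j k * M.adjugate k l := by
          rw [Finset.mul_sum, ← Finset.sum_sub_distrib]
          exact Finset.sum_congr rfl fun k _ => by ring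
        rw [e3, e2, mul_zero, sub_zero]
      rw [e1]
      refine (Finset.abs_sum_le_sum_abs _ _).trans ?_
      have e4 : ∀ k ∈ Finset.univ, |M j k * (M'.adjugate k l - τ * M.adjugate k l)|
          ≤ C * (2 * r) := by
        intro k _
        rw [abs_mul]
        exact mul_le_mul (hC j k) (hτ' k) (abs_nonneg _) hC0
      refine (Finset.sum_le_sum e4).trans ?_
      simp
      have : C ≤ C ^ 2 := by nlinarith
      nlinarith

/-- few lines in a window give an automorph -/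
theorem cov_aut {col : Bool} {l : Fin 3} {g : Mt} (hg : g.det = 1) {a : Fin 3 → ℝ}
    (ha : (Matrix.diagonal a).det = 1) {K : Set Mt} {C : ℝ} (hC1 : 1 ≤ C)
    (hC : ∀ M ∈ K, ∀ i j, |M i j| ≤ C) {lam : ℝ} (hlam : 6 * C ^ 3 < lam) {m : ℕ} {r : ℝ}
    (hr : 0 < r) (hrm : lam ^ (2 * m) ≤ 1 / r) {V : Finset (Fin 3 → ℝ)}
    (hV : V.card < (m + 1) ^ 2)
    (hcov : ∀ s : Fin 3 → ℝ, (Matrix.diagonal s).det = 1 → (∀ i, r ≤ |s i| ∧ |s i| ≤ 1 / r) →
      ∃ γ : Zt, γ.det = 1 ∧ Matrix.diagonal s * (Matrix.diagonal a * g) * ir γ ∈ K ∧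
        ∃ v ∈ V, ∃ t : ℝ, ∀ j,
          |cph col l (Matrix.diagonal s * (Matrix.diagonal a * g) * ir γ) j - t * v j| ≤ r) :
    Aut col g a l (6 * C ^ 3 * (lam ^ (2 * m)) ^ 2) (12 * C ^ 2 * r * (lam ^ (2 * m)) ^ 2) := by
  have hC3 : 1 ≤ C ^ 3 := one_le_pow₀ hC1
  have hlam1 : 1 < lam := by linarith
  have hlam0 : 0 < lam := by linarith
  set e : Fin (m + 1) × Fin (m + 1) → Fin 3 → ℤ := fun p =>
    ![((p.1 : ℕ) : ℤ), ((p.2 : ℕ) : ℤ), -(((p.1 : ℕ) : ℤ) + ((p.2 : ℕ) : ℤ))] with he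
  set s : Fin (m + 1) × Fin (m + 1) → Fin 3 → ℝ := fun p i => lam ^ (e p i) with hs
  have hsd : ∀ p, (Matrix.diagonal (s p)).det = 1 := by
    intro p
    rw [det_diagonal3]
    simp only [hs]
    rw [← zpow_add₀ hlam0.ne', ← zpow_add₀ hlam0.ne']
    have : e p 0 + e p 1 + e p 2 = 0 := by
      simp only [he, Matrix.cons_val_zero, Matrix.cons_val_one, Matrix.cons_val]
      ring
    rw [this, zpow_zero]
  have hpos : ∀ p i, 0 < s p i := fun p i => zpow_pos hlam0 _
  have hebd : ∀ p i, -(2 * (m : ℤ)) ≤ e p i ∧ e p i ≤ 2 * (m : ℤ) := by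
    intro p i
    have h1 : ((p.1 : ℕ) : ℤ) ≤ m := by have := p.1.2; omega
    have h2 : ((p.2 : ℕ) : ℤ) ≤ m := by have := p.2.2; omega
    have h3 : (0 : ℤ) ≤ ((p.1 : ℕ) : ℤ) := Int.natCast_nonneg _
    have h4 : (0 : ℤ) ≤ ((p.2 : ℕ) : ℤ) := Int.natCast_nonneg _
    fin_cases i
    · change -(2 * (m : ℤ)) ≤ ((p.1 : ℕ) : ℤ) ∧ ((p.1 : ℕ) : ℤ) ≤ 2 * m
      constructor <;> omega
    · change -(2 * (m : ℤ)) ≤ ((p.2 : ℕ) : ℤ) ∧ ((p.2 : ℕ) : ℤ) ≤ 2 * m
      constructor <;> omega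
    · change -(2 * (m : ℤ)) ≤ -(((p.1 : ℕ) : ℤ) + ((p.2 : ℕ) : ℤ)) ∧
        -(((p.1 : ℕ) : ℤ) + ((p.2 : ℕ) : ℤ)) ≤ 2 * m
      constructor <;> omega
  have hSz : lam ^ (2 * m) = lam ^ (2 * (m : ℤ)) := by
    rw [← zpow_natCast]; push_cast; rfl
  have hsS : ∀ p i, |s p i| ≤ lam ^ (2 * m) := by
    intro p i
    rw [abs_of_pos (hpos p i), hSz]
    exact zpow_le_zpow_right₀ hlam1.le (hebd p i).2
  have hsS' : ∀ p i, |(s p i)⁻¹| ≤ lam ^ (2 * m) := by
    intro p i
    rw [abs_inv, abs_of_pos (hpos p i), hSz]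
    simp only [hs]
    rw [← _root_.zpow_neg]
    refine zpow_le_zpow_right₀ hlam1.le ?_
    have := (hebd p i).1
    omega
  have hwin : ∀ p i, r ≤ |s p i| ∧ |s p i| ≤ 1 / r := by
    intro p i
    refine ⟨?_, (hsS p i).trans hrm⟩
    have h1 := (hsS' p i).trans hrm
    rw [abs_inv] at h1
    have h2 : 0 < |s p i| := abs_pos.mpr (hpos p i).ne'
    rw [inv_le_comm₀ h2 (by positivity)] at h1
    simpa using h1
  choose γ hγ hγK v hvV t ht using fun p => hcov (s p) (hsd p) (hwin p)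
  obtain ⟨p, -, p', -, hne, hvv⟩ := Finset.exists_ne_map_eq_of_card_lt_of_maps_to
    (s := (Finset.univ : Finset (Fin (m + 1) × Fin (m + 1)))) (t := V) (f := v) (by
      rw [Finset.card_univ, Fintype.card_prod, Fintype.card_fin, ← pow_two]
      exact hV) (fun p _ => hvV p)
  -- exponents differ in both directions
  have hdiff : ∀ p p', p ≠ p' → (∃ i, e p i + 1 ≤ e p' i) ∧ (∃ i, e p' i + 1 ≤ e p i) := by
    intro p p' hne
    have h0 : e p 0 = ((p.1 : ℕ) : ℤ) := rfl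
    have h1 : e p 1 = ((p.2 : ℕ) : ℤ) := rfl
    have h2 : e p 2 = -(((p.1 : ℕ) : ℤ) + ((p.2 : ℕ) : ℤ)) := rfl
    have h0' : e p' 0 = ((p'.1 : ℕ) : ℤ) := rfl
    have h1' : e p' 1 = ((p'.2 : ℕ) : ℤ) := rfl
    have h2' : e p' 2 = -(((p'.1 : ℕ) : ℤ) + ((p'.2 : ℕ) : ℤ)) := rfl
    constructor
    · by_contra hcon
      push Not at hcon
      have c0 := hcon 0
      have c1 := hcon 1
      have c2 := hcon 2
      apply hne
      ext
      · omega
      · omega
    · by_contra hcon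
      push Not at hcon
      have c0 := hcon 0
      have c1 := hcon 1
      have c2 := hcon 2
      apply hne
      ext
      · omega
      · omega
  have hbig : ∀ p p' i, e p i + 1 ≤ e p' i → 6 * C ^ 3 * |s p i| < |s p' i| := by
    intro p p' i hi
    rw [abs_of_pos (hpos p i), abs_of_pos (hpos p' i)]
    have h1 : lam ^ (e p i + 1) ≤ lam ^ (e p' i) := zpow_le_zpow_right₀ hlam1.le hi
    have h2 : lam ^ (e p i + 1) = lam ^ (e p i) * lam := zpow_add_one₀ hlam0.ne' _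
    have h3 : 0 < lam ^ (e p i) := zpow_pos hlam0 _
    simp only [hs]
    nlinarith
  obtain ⟨⟨i1, hi1⟩, ⟨i2, hi2⟩⟩ := hdiff p p' hne
  have hCC : ∀ p i j, |(Matrix.diagonal (s p) * (Matrix.diagonal a * g) * ir (γ p)) i j| ≤ C :=
    fun p i j => hC _ (hγK p) i j
  rcases le_total |t p'| |t p| with htt | htt
  · exact pair_aut hg ha (hsd p) (hsd p') (hγ p) (hγ p') hC1 (hCC p) (hCC p') hr.le (ht p)
      (by rw [hvv]; exact ht p') htt ⟨i1, hbig _ _ _ hi1⟩ ⟨i2, hbig _ _ _ hi2⟩ (hsS p) (hsS p')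
      (hsS' p) (hsS' p')
  · exact pair_aut hg ha (hsd p') (hsd p) (hγ p') (hγ p) hC1 (hCC p') (hCC p) hr.le (ht p')
      (by rw [← hvv]; exact ht p) htt ⟨i2, hbig _ _ _ hi2⟩ ⟨i1, hbig _ _ _ hi1⟩ (hsS p') (hsS p)
      (hsS' p') (hsS' p)

end M3D
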